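import Pool.Agent.TH926.EH.Par
import Pool.Agent.H441R3.BV.Fin

/-!
Averages over the moduli of the two parts of the discrepancy.
-/

set_option autoImplicit false

open Finset Filter

namespace Pool.Agent.TH926.EH

open Pool.Agent.H398R2.BV (Prim card_prim_le)
open Pool.Agent.Helper112
open Pool.Agent.H442R2.EHI (piAP lis)
open Pool.Agent.H441R3.BV

lemma MX_single (N f : ℕ) (ψ : DirichletCharacter ℂ f) :
    MX {N} (singleton_nonempty N) f ψ = ‖PS N f ψ‖ := by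
  unfold MX
  rw [Finset.sup'_singleton]

/-- small conductors: the primitive characters -/
theorem low_cond (U : ℕ) (δ : ℝ) (hδ : 0 < δ) : ∃ C : ℝ, 0 ≤ C ∧ ∃ x0 : ℕ, 1 ≤ x0 ∧
    ∀ N : ℕ, x0 ≤ N → ∀ D : ℕ, (D : ℝ) ≤ (N : ℝ) ^ (1 / 2 - δ) →
    ∑ f ∈ Icc 2 D, (1 / (Nat.totient f : ℝ)) * ∑ ψ ∈ Prim f, ‖PS N f ψ‖ ≤
      C * (N / Real.log N ^ U) := by
  set V := U + 4 with hV
  set b := V + 2 with hb
  obtain ⟨x1, hsm⟩ := small_total (U + 2) (b + 1)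
  set C1 : ℝ := 9216 * ((2 * (0 + V + 2) : ℕ) + 2) * ((0 + V + 9 : ℕ) : ℝ) with hC1
  have hC1' : 0 ≤ C1 := by rw [hC1]; positivity
  have evl := floor_log_tendsto.eventually (ev_l V (0 + V + 9) (2 * (0 + V + 2)) C1)
  have evx : ∀ᶠ X : ℝ in atTop, (4:ℝ) ≤ Real.log X ∧ 1 * Real.log X ^ (U + 2) ≤ X ^ δ ∧ 4 ≤ X :=
    (Real.tendsto_log_atTop.eventually (eventually_ge_atTop 4)).and
      ((Pool.Agent.H398R2.BV.ev_log 1 (U + 2) δ hδ).and (eventually_ge_atTop 4))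
  have evN := tendsto_natCast_atTop_atTop (R := ℝ) |>.eventually evx
  obtain ⟨x0, hx0⟩ := eventually_atTop.1 (evl.and (evN.and (eventually_ge_atTop x1)))
  refine ⟨(1 + 2 ^ V) + 15 * C1, by positivity, max x0 1, le_max_right _ _,
    fun N hN' D hD => ?_⟩
  have hN : x0 ≤ N := (le_max_left _ _).trans hN'
  obtain ⟨⟨l1, l2, l3⟩, ⟨w1, w2, w3⟩, hNx1⟩ := hx0 N hN
  have hN4 : 4 ≤ N := by exact_mod_cast w3
  have hNr : (0:ℝ) < N := by linarith
  set Λ := Real.log N with hΛ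
  set L := ⌊Λ⌋₊ with hL
  have hΛ0 : 0 < Λ := by linarith
  have hLΛ : (L:ℝ) ≤ Λ := Nat.floor_le hΛ0.le
  have hL1 : Λ < L + 1 := Nat.lt_floor_add_one Λ
  have hL2 : Λ ≤ 2 * L := by linarith
  have hL3 : (3:ℝ) < L := by linarith
  have hL1' : 1 ≤ L := by
    have : (1:ℝ) ≤ L := by linarith
    exact_mod_cast this
  rcases Nat.eq_zero_or_pos D with hD0 | hD1
  · subst hD0
    simp only [show Icc 2 0 = (∅ : Finset ℕ) from rfl, sum_empty]
    positivity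
  have hsqrt : Real.sqrt N = (N:ℝ) ^ (1/2:ℝ) := Real.sqrt_eq_rpow _
  have hNr1 : (1:ℝ) ≤ N := by linarith
  have hD2 : D ^ 2 ≤ N := by
    have h1 : (D:ℝ) ≤ Real.sqrt N := by
      rw [hsqrt]
      refine hD.trans ?_
      apply Real.rpow_le_rpow_of_exponent_le hNr1
      linarith
    have h2 : (D:ℝ) ^ 2 ≤ (N:ℝ) := by
      calc (D:ℝ) ^ 2 ≤ Real.sqrt (N:ℝ) ^ 2 := pow_le_pow_left₀ (Nat.cast_nonneg D) h1 2
        _ = (N:ℝ) := Real.sq_sqrt hNr.le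
    exact_mod_cast h2
  have hne : ({N} : Finset ℕ).Nonempty := singleton_nonempty N
  have hcard : ((({N} : Finset ℕ).card : ℕ) : ℝ) ≤ (L:ℝ) ^ 0 := by simp
  have hcond := cond_sum N D L V b Λ C1 U rfl w1 (by omega) hC1' hD1 hD2 hL1' rfl hLΛ hL2 {N} hne
    (fun F0 hF0 => hsm N hNx1 F0 hF0 {N} hne (by
      intro v hv
      rw [mem_singleton] at hv
      subst hv
      exact ⟨by omega, le_rfl⟩))
    (fun F hF1 hF2 => level_core V 0 L N F C1 hC1 l1 l2 l3 hLΛ hL1 {N} hne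
      (fun v hv => (mem_singleton.1 hv).le) hcard hF1 hF2)
  have h1 : ∑ f ∈ Icc 2 D, (1 / (Nat.totient f : ℝ)) * ∑ ψ ∈ Prim f, ‖PS N f ψ‖ ≤
      ∑ d ∈ Icc 1 D, (1 / (Nat.totient d : ℝ)) * ∑ f ∈ d.divisors.filter (fun f => f ≠ 1),
        ∑ ψ ∈ Prim f, MX {N} hne f ψ := by
    have h2 : ∀ f ∈ Icc 2 D, (1 / (Nat.totient f : ℝ)) * ∑ ψ ∈ Prim f, ‖PS N f ψ‖ ≤
        (1 / (Nat.totient f : ℝ)) * ∑ e ∈ f.divisors.filter (fun e => e ≠ 1),
        ∑ ψ ∈ Prim e, MX {N} hne e ψ := by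
      intro f hf
      rw [mem_Icc] at hf
      apply mul_le_mul_of_nonneg_left _ (by positivity)
      have h3 : f ∈ f.divisors.filter (fun e => e ≠ 1) := by
        rw [mem_filter, Nat.mem_divisors]
        exact ⟨⟨dvd_rfl, by omega⟩, by omega⟩
      have h4 := single_le_sum (f := fun e => ∑ ψ ∈ Prim e, MX {N} hne e ψ)
        (fun e _ => sum_nonneg fun ψ _ => MX_nonneg _ _ _ _) h3
      refine le_trans (le_of_eq ?_) h4
      apply sum_congr rfl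
      intro ψ _
      exact (MX_single N f ψ).symm
    refine (sum_le_sum h2).trans ?_
    apply sum_le_sum_of_subset_of_nonneg
    · exact Icc_subset_Icc_left (by norm_num)
    · intro d _ _
      apply mul_nonneg (by positivity)
      exact sum_nonneg fun e _ => sum_nonneg fun ψ _ => MX_nonneg _ _ _ _
  refine (h1.trans hcond).trans ?_
  have h5 : (D:ℝ) * Real.sqrt N * Real.log Λ ^ 2 ≤ N / Λ ^ U := by
    rw [le_div_iff₀ (by positivity)]
    have h6 : Real.log Λ ≤ Λ := (Real.log_le_sub_one_of_pos hΛ0).trans (by linarith)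
    have h7 : 0 ≤ Real.log Λ := Real.log_nonneg (by linarith)
    calc (D:ℝ) * Real.sqrt N * Real.log Λ ^ 2 * Λ ^ U ≤
        (N:ℝ) ^ (1/2 - δ) * (N:ℝ) ^ (1/2:ℝ) * Λ ^ 2 * Λ ^ U := by
          rw [hsqrt]
          gcongr
      _ = (N:ℝ) ^ (1/2 - δ) * (N:ℝ) ^ (1/2:ℝ) * (1 * Λ ^ (U + 2)) := by ring
      _ ≤ (N:ℝ) ^ (1/2 - δ) * (N:ℝ) ^ (1/2:ℝ) * (N:ℝ) ^ δ := by gcongr
      _ = N := by
          rw [← Real.rpow_add hNr, ← Real.rpow_add hNr]
          have : (1:ℝ) / 2 - δ + 1 / 2 + δ = 1 := by ring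
          rw [this, Real.rpow_one]
  have h6 : 15 * C1 * ((D:ℝ) * Real.sqrt N * Real.log Λ ^ 2) ≤ 15 * C1 * (N / Λ ^ U) := by
    gcongr
  calc (1 + 2 ^ V) * ((N:ℝ) / Λ ^ U) + 15 * C1 * ((D:ℝ) * Real.sqrt N * Real.log (Real.log N) ^ 2)
      ≤ (1 + 2 ^ V) * ((N:ℝ) / Λ ^ U) + 15 * C1 * (N / Λ ^ U) := by
        rw [← hΛ]
        gcongr
    _ = _ := by ring

/-- small conductors on average over the moduli -/
theorem low_sum (N R Q : ℕ) :
    ∑ d ∈ Icc 1 Q, (1 / (Nat.totient d : ℝ)) *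
      ∑ f ∈ d.divisors.filter (fun f => f ≠ 1), Gs N R f ≤
      (1 + Real.log Q) ^ 2 *
        ∑ f ∈ Icc 2 R, (1 / (Nat.totient f : ℝ)) * ∑ ψ ∈ Prim f, ‖PS N f ψ‖ := by
  refine (swap Q (Gs N R) (Gs_nonneg N R)).trans ?_
  have hlQ : 0 ≤ Real.log Q := Real.log_natCast_nonneg Q
  have h1 : ∀ f ∈ Icc 2 Q, (1 / (Nat.totient f : ℝ)) * Gs N R f * (1 + Real.log (Q / f)) ^ 2 ≤
      (1 + Real.log Q) ^ 2 * ((1 / (Nat.totient f : ℝ)) * Gs N R f) := by
    intro f hf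
    rw [mem_Icc] at hf
    have hf1 : (1:ℝ) ≤ f := by
      have : 1 ≤ f := by omega
      exact_mod_cast this
    have hfQ : (f:ℝ) ≤ Q := by exact_mod_cast hf.2
    have h2 : 0 ≤ Real.log (Q / f) :=
      Real.log_nonneg (by rw [le_div_iff₀ (by linarith)]; linarith)
    have h3 : Real.log (Q / f) ≤ Real.log Q := by
      apply Real.log_le_log
      · apply div_pos <;> linarith
      · exact div_le_self (by linarith) hf1
    have h4 : 0 ≤ (1 / (Nat.totient f : ℝ)) * Gs N R f :=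
      mul_nonneg (by positivity) (Gs_nonneg N R f)
    rw [mul_comm]
    apply mul_le_mul_of_nonneg_right _ h4
    apply pow_le_pow_left₀ (by linarith)
    linarith
  refine (sum_le_sum h1).trans ?_
  rw [← mul_sum]
  apply mul_le_mul_of_nonneg_left _ (by positivity)
  have h5 : ∀ f ∈ Icc 2 Q, (1 / (Nat.totient f : ℝ)) * Gs N R f =
      if f ≤ R then (1 / (Nat.totient f : ℝ)) * ∑ ψ ∈ Prim f, ‖PS N f ψ‖ else 0 := by
    intro f _
    unfold Gs
    split_ifs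
    · rfl
    · ring
  rw [sum_congr rfl h5, ← sum_filter]
  apply sum_le_sum_of_subset_of_nonneg
  · intro f hf
    rw [mem_filter, mem_Icc] at hf
    rw [mem_Icc]
    omega
  · intro f _ _
    exact mul_nonneg (by positivity) (sum_nonneg fun _ _ => norm_nonneg _)

/-- the residues modulo `d` -/
lemma sum_range_norm (d : ℕ) [NeZero d] (g : ZMod d → ℝ) :
    ∑ a ∈ range d, g ((a : ℕ) : ZMod d) = ∑ x : ZMod d, g x := by
  symm
  apply sum_nbij' (fun x : ZMod d => x.val) (fun a : ℕ => (a : ZMod d))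
  · intro x _
    rw [mem_range]
    exact ZMod.val_lt x
  · intro a _
    exact mem_univ _
  · intro x _
    exact ZMod.natCast_zmod_val x
  · intro a ha
    rw [mem_range] at ha
    exact ZMod.val_cast_of_lt ha
  · intro x _
    rw [ZMod.natCast_zmod_val]

/-- mean square over the residues -/
lemma Al_sq' (N d R : ℕ) (hd : 1 ≤ d) :
    ∑ a ∈ range d, ‖Al N d R (a : ZMod d)‖ ^ 2 ≤
      (1 / (Nat.totient d : ℝ)) * ∑ f ∈ d.divisors.filter (fun f => f ≠ 1), Gl N R f +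
        2 * (d.primeFactors.card : ℝ) ^ 2 := by
  have : NeZero d := ⟨by omega⟩
  rw [sum_range_norm d (fun u => ‖Al N d R u‖ ^ 2)]
  exact Al_sq N d R hd

lemma Al_zero (N d R : ℕ) (hd : 1 ≤ d) (hdR : d ≤ R) (u : ZMod d) : Al N d R u = 0 := by
  unfold Al
  have : highS d R = ∅ := by
    rw [Finset.eq_empty_iff_forall_notMem]
    intro χ hχ
    rw [mem_highS] at hχ
    have h1 : χ.conductor ≤ d := Nat.le_of_dvd (by omega) χ.conductor_dvd_level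
    omega
  rw [this, sum_empty, mul_zero]

lemma ls_prime (N F : ℕ) :
    ∑ f ∈ Icc 1 F, ((f : ℝ) / (Nat.totient f : ℝ)) * ∑ ψ ∈ Prim f, ‖PS N f ψ‖ ^ 2 ≤
      6 * (N + (F:ℝ) ^ 2) * N := by
  have h1 := mult_large_sieve N F (fun n => ((if n.Prime then (1:ℝ) else 0 : ℝ) : ℂ))
  have h2 : ∑ n ∈ Icc 1 N, ‖((if n.Prime then (1:ℝ) else 0 : ℝ) : ℂ)‖ ^ 2 ≤ N := by
    calc ∑ n ∈ Icc 1 N, ‖((if n.Prime then (1:ℝ) else 0 : ℝ) : ℂ)‖ ^ 2 ≤ ∑ _n ∈ Icc 1 N, (1:ℝ) := by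
          apply sum_le_sum
          intro n _
          split_ifs <;> simp
      _ = N := by simp
  refine le_trans h1 ?_
  gcongr

/-- large conductors in a dyadic interval -/
lemma high_dyadic (N R F : ℕ) (hF : 0 < F) (hRF : (R:ℝ) ≤ 2 * F) (hR : 1 ≤ R) :
    ∑ f ∈ Ioc F (2 * F), (1 / (Nat.totient f : ℝ)) * Gl N R f ≤
      48 * N * F + 24 * (N:ℝ) ^ 2 / R := by
  have hF0 : (0:ℝ) < F := by exact_mod_cast hF
  have hR0 : (0:ℝ) < R := by exact_mod_cast hR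
  have h1 : ∀ f ∈ Ioc F (2 * F), (1 / (Nat.totient f : ℝ)) * Gl N R f ≤
      (2 / F) * (((f : ℝ) / (Nat.totient f : ℝ)) * ∑ ψ ∈ Prim f, ‖PS N f ψ‖ ^ 2) := by
    intro f hf
    rw [mem_Ioc] at hf
    have hφ : (0 : ℝ) < Nat.totient f := by exact_mod_cast Nat.totient_pos.mpr (by omega)
    have hfF : (F:ℝ) ≤ f := by exact_mod_cast hf.1.le
    have hS : 0 ≤ ∑ ψ ∈ Prim f, ‖PS N f ψ‖ ^ 2 := sum_nonneg fun _ _ => by positivity
    have h2 : Gl N R f ≤ 2 * ∑ ψ ∈ Prim f, ‖PS N f ψ‖ ^ 2 := by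
      unfold Gl
      split_ifs
      · exact le_rfl
      · positivity
    calc (1 / (Nat.totient f : ℝ)) * Gl N R f ≤
        (1 / (Nat.totient f : ℝ)) * (2 * ∑ ψ ∈ Prim f, ‖PS N f ψ‖ ^ 2) := by gcongr
      _ = (2 / F) * (((F : ℝ) / (Nat.totient f : ℝ)) * ∑ ψ ∈ Prim f, ‖PS N f ψ‖ ^ 2) := by
          field_simp
      _ ≤ _ := by gcongr
  refine (sum_le_sum h1).trans ?_
  rw [← mul_sum]
  have h2 : ∑ f ∈ Ioc F (2 * F), ((f : ℝ) / (Nat.totient f : ℝ)) * ∑ ψ ∈ Prim f, ‖PS N f ψ‖ ^ 2 ≤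
      ∑ f ∈ Icc 1 (2 * F), ((f : ℝ) / (Nat.totient f : ℝ)) * ∑ ψ ∈ Prim f, ‖PS N f ψ‖ ^ 2 := by
    apply sum_le_sum_of_subset_of_nonneg
    · intro f hf
      rw [mem_Ioc] at hf
      rw [mem_Icc]
      omega
    · intro f _ _
      exact mul_nonneg (by positivity) (sum_nonneg fun _ _ => by positivity)
  have h3 := ls_prime N (2 * F)
  calc (2 / (F:ℝ)) * ∑ f ∈ Ioc F (2 * F), ((f : ℝ) / (Nat.totient f : ℝ)) *
        ∑ ψ ∈ Prim f, ‖PS N f ψ‖ ^ 2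
      ≤ (2 / (F:ℝ)) * (6 * (N + ((2 * F : ℕ):ℝ) ^ 2) * N) := by
        apply mul_le_mul_of_nonneg_left (h2.trans h3) (by positivity)
    _ = 48 * N * F + 12 * (N:ℝ) ^ 2 / F := by
        push_cast
        field_simp
        ring
    _ ≤ 48 * N * F + 24 * (N:ℝ) ^ 2 / R := by
        apply add_le_add le_rfl
        rw [div_le_div_iff₀ hF0 hR0]
        nlinarith [sq_nonneg (N:ℝ)]

/-- large conductors on average over the moduli -/
lemma high_cond (N R Q : ℕ) (hQ : 1 ≤ Q) (hR : 1 ≤ R) :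
    ∑ d ∈ Icc 1 Q, (1 / (Nat.totient d : ℝ)) *
      ∑ f ∈ d.divisors.filter (fun f => f ≠ 1), Gl N R f ≤
      720 * N * Q + (Nat.log 2 Q + 1) * (1 + Real.log Q) ^ 2 * (24 * (N:ℝ) ^ 2 / R) := by
  refine (swap Q (Gl N R) (Gl_nonneg N R)).trans ?_
  have h0 : ∑ f ∈ Icc 2 (2 ^ Nat.log 2 R), (1 / (Nat.totient f : ℝ)) * Gl N R f ≤ 0 := by
    apply le_of_eq
    apply sum_eq_zero
    intro f hf
    rw [mem_Icc] at hf
    have h1 : 2 ^ Nat.log 2 R ≤ R := Nat.pow_log_le_self 2 (by omega)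
    unfold Gl
    rw [if_neg (by omega), mul_zero]
  have h1 := dyadic Q (Nat.log 2 R) hQ (fun f => (1 / (Nat.totient f : ℝ)) * Gl N R f)
    (fun f => mul_nonneg (by positivity) (Gl_nonneg N R f)) 0 (24 * (N:ℝ) ^ 2 / R) (48 * N)
    (by positivity) (by positivity) h0 (by
      intro i hi _
      have h2 : R < 2 * 2 ^ i := by
        have h3 : R < 2 ^ (Nat.log 2 R + 1) := Nat.lt_pow_succ_log_self (by norm_num) R
        have h4 : 2 ^ (Nat.log 2 R + 1) ≤ 2 ^ (i + 1) := Nat.pow_le_pow_right (by norm_num) (by omega)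
        rw [pow_succ 2 i] at h4
        omega
      have h5 := high_dyadic N R (2 ^ i) (by positivity) (by exact_mod_cast h2.le) hR
      push_cast at h5
      exact h5)
  refine h1.trans (le_of_eq ?_)
  ring

end Pool.Agent.TH926.EH
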