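import Pool.Agent.TH926.EH.Sets

/-!
Arbitrary families of residue systems.
-/

set_option autoImplicit false

open Finset Filter

namespace Pool.Agent.TH926.EH

/-- number of members of the family in a class -/
noncomputable def muF {ι : Type} (I : Finset ι) (c : ι → ℕ → ℕ) (q r : ℕ) : ℝ :=
  ((I.filter (fun i => c i q % q = r)).card : ℝ)

lemma sum_modF {ι : Type} (I : Finset ι) (c : ι → ℕ → ℕ) (q : ℕ) (hq : 1 ≤ q) (F : ℕ → ℝ) :
    ∑ i ∈ I, F (c i q % q) = ∑ r ∈ range q, muF I c q r * F r := by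
  have hmaps : ∀ i ∈ I, c i q % q ∈ range q := fun a _ => mem_range.2 (Nat.mod_lt _ (by omega))
  rw [← sum_fiberwise_of_maps_to hmaps]
  apply sum_congr rfl
  intro r _
  unfold muF
  rw [← nsmul_eq_mul, ← sum_const]
  apply sum_congr rfl
  intro a ha
  rw [(mem_filter.1 ha).2]

/-- the number of the coincidences -/
noncomputable def en {ι : Type} (I : Finset ι) (c : ι → ℕ → ℕ) (Q : ℕ) : ℕ :=
  ∑ q ∈ Icc 1 Q, ((I ×ˢ I).filter (fun p => c p.1 q ≡ c p.2 q [MOD q])).card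

lemma en_eq {ι : Type} (I : Finset ι) (c : ι → ℕ → ℕ) (Q : ℕ) :
    (en I c Q : ℝ) = ∑ q ∈ Icc 1 Q, ∑ i ∈ I, muF I c q (c i q % q) := by
  unfold en
  push_cast
  apply sum_congr rfl
  intro q _
  rw [card_filter, Nat.cast_sum, sum_product_right]
  apply sum_congr rfl
  intro i _
  unfold muF
  rw [card_filter, Nat.cast_sum]
  apply sum_congr rfl
  intro j _
  rfl

/-- Cauchy-Schwarz -/
lemma cs_partF {ι : Type} (I : Finset ι) (c : ι → ℕ → ℕ) (Q : ℕ) (g : ℕ → ℕ → ℝ) :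
    ∑ i ∈ I, ∑ q ∈ Icc 1 Q, g q (c i q % q) ≤
      Real.sqrt (en I c Q) * Real.sqrt (∑ q ∈ Icc 1 Q, ∑ r ∈ range q, g q r ^ 2) := by
  rw [sum_comm, en_eq]
  have h1 : ∑ q ∈ Icc 1 Q, ∑ i ∈ I, g q (c i q % q) =
      ∑ p ∈ (Icc 1 Q).sigma (fun q => range q), muF I c p.1 p.2 * g p.1 p.2 := by
    rw [sum_sigma]
    apply sum_congr rfl
    intro q hq
    rw [mem_Icc] at hq
    exact sum_modF I c q hq.1 (g q)
  have h2 : ∑ q ∈ Icc 1 Q, ∑ i ∈ I, muF I c q (c i q % q) =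
      ∑ p ∈ (Icc 1 Q).sigma (fun q => range q), muF I c p.1 p.2 ^ 2 := by
    rw [sum_sigma]
    apply sum_congr rfl
    intro q hq
    rw [mem_Icc] at hq
    rw [sum_modF I c q hq.1 (muF I c q)]
    apply sum_congr rfl
    intro r _
    rw [sq]
  have h3 : ∑ q ∈ Icc 1 Q, ∑ r ∈ range q, g q r ^ 2 =
      ∑ p ∈ (Icc 1 Q).sigma (fun q => range q), g p.1 p.2 ^ 2 := by
    rw [sum_sigma]
  rw [h1, h2, h3]
  exact Real.sum_mul_le_sqrt_mul_sqrt _ _ _

/-- **arbitrary families of residue systems** -/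
theorem fam (ε : ℝ) (hε : 0 < ε) (hε1 : ε < 1) (U : ℕ) : ∃ C : ℝ, 0 < C ∧
    ∀ N : ℕ, 3 ≤ N → ∀ Q : ℕ, (Q : ℝ) ≤ (N : ℝ) ^ (1 - ε) →
    ∀ (ι : Type) (I : Finset ι) (c : ι → ℕ → ℕ),
    ∑ i ∈ I, ∑ q ∈ (Icc 1 Q).filter (fun q => (c i q).Coprime q), E N q (c i q) ≤
      C * (I.card * (N / Real.log N ^ U) + Real.sqrt (en I c Q * Q * (N : ℝ) ^ (1 + ε))) := by
  obtain ⟨C1, hC10, hC1⟩ := low_total' U (ε / 3) (by positivity) ε hε
  obtain ⟨C2, hC20, hC2⟩ := high_sum (ε / 3) (by positivity) (by linarith)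
  refine ⟨C1 + Real.sqrt C2, by positivity, fun N hN Q hQ ι I c => ?_⟩
  have hN1 : (1:ℝ) ≤ N := by
    have : 1 ≤ N := by omega
    exact_mod_cast this
  have hN0 : (0:ℝ) < N := by linarith
  have hl : 0 < Real.log N := Real.log_pos (by
    have : (3:ℝ) ≤ N := by exact_mod_cast hN
    linarith)
  set u : ℝ := (N:ℝ) / Real.log N ^ U with hu
  have hu0 : 0 < u := by positivity
  set n : ℝ := (I.card : ℝ) with hn
  have hn0 : 0 ≤ n := Nat.cast_nonneg _
  rcases Nat.eq_zero_or_pos Q with hQ0 | hQ1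
  · subst hQ0
    have : ∑ i ∈ I, ∑ q ∈ (Icc 1 0).filter (fun q => (c i q).Coprime q), E N q (c i q) = 0 := by
      apply sum_eq_zero
      intro a _
      simp
    rw [this]
    positivity
  have hQN : (Q:ℝ) ≤ N := by
    refine hQ.trans ?_
    calc (N:ℝ) ^ (1 - ε) ≤ (N:ℝ) ^ (1:ℝ) := by
          apply Real.rpow_le_rpow_of_exponent_le hN1
          linarith
      _ = N := Real.rpow_one _
  have hQN' : Q ≤ N := by exact_mod_cast hQN
  set R := cut (ε / 3) N with hR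
  set g : ℕ → ℕ → ℝ := fun q r => ‖Al N q R (r : ZMod q)‖ with hg
  have s1 : ∑ i ∈ I, ∑ q ∈ (Icc 1 Q).filter (fun q => (c i q).Coprime q), E N q (c i q) ≤
      ∑ i ∈ I, ∑ q ∈ Icc 1 Q, (min (low (ε / 3) N q) N + g q (c i q % q)) := by
    apply sum_le_sum
    intro i _
    have hm : ∀ q, 0 ≤ min (low (ε / 3) N q) N + g q (c i q % q) := fun q =>
      add_nonneg (le_min (low_nonneg _ _ _) hN0.le) (norm_nonneg _)
    calc ∑ q ∈ (Icc 1 Q).filter (fun q => (c i q).Coprime q), E N q (c i q) ≤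
        ∑ q ∈ (Icc 1 Q).filter (fun q => (c i q).Coprime q),
          (min (low (ε / 3) N q) N + g q (c i q % q)) := by
          apply sum_le_sum
          intro q hq
          rw [mem_filter, mem_Icc] at hq
          have h1 := E_le (ε / 3) N q (c i q) hq.1.1 hq.2
          have h2 := E_triv N q (c i q) hq.1.1
          have h3 : g q (c i q % q) = ‖Al N q R (c i q : ZMod q)‖ := by
            simp only [hg]
            rw [ZMod.natCast_mod]
          have h4 : 0 ≤ ‖Al N q R (c i q : ZMod q)‖ := norm_nonneg _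
          rw [h3]
          rcases min_choice (low (ε / 3) N q) (N:ℝ) with h | h
          · rw [h]
            exact h1
          · rw [h]
            linarith
      _ ≤ _ := sum_le_sum_of_subset_of_nonneg (filter_subset _ _) fun q _ _ => hm q
  have s2 : ∑ i ∈ I, ∑ q ∈ Icc 1 Q, (min (low (ε / 3) N q) N + g q (c i q % q)) =
      n * ∑ q ∈ Icc 1 Q, min (low (ε / 3) N q) N + ∑ i ∈ I, ∑ q ∈ Icc 1 Q, g q (c i q % q) := by
    rw [← nsmul_eq_mul, ← sum_const, ← sum_add_distrib]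
    apply sum_congr rfl
    intro a _
    rw [sum_add_distrib]
  have s3 : ∑ q ∈ Icc 1 Q, min (low (ε / 3) N q) (N:ℝ) ≤ C1 * u := by
    apply hC1 N hN Q hQ (fun q => min (low (ε / 3) N q) (N:ℝ))
    · intro d _
      have h1 : 0 ≤ (N : ℝ) ^ (1 - ε / 3) / d := by positivity
      exact (min_le_left _ _).trans (by linarith)
    · intro d _
      exact min_le_right _ _
  have s5 := hC2 N (by omega) Q hQ1 hQN'
  have s6 := cs_partF I c Q g
  have e0 : (1:ℝ) + 3 * (ε / 3) = 1 + ε := by ring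
  rw [e0] at s5
  have s8 : ∑ i ∈ I, ∑ q ∈ Icc 1 Q, g q (c i q % q) ≤
      Real.sqrt C2 * Real.sqrt (en I c Q * Q * (N : ℝ) ^ (1 + ε)) := by
    refine s6.trans ?_
    rw [← Real.sqrt_mul (Nat.cast_nonneg _), ← Real.sqrt_mul hC20.le]
    apply Real.sqrt_le_sqrt
    calc (en I c Q : ℝ) * ∑ q ∈ Icc 1 Q, ∑ r ∈ range q, g q r ^ 2 ≤
        en I c Q * (C2 * Q * (N : ℝ) ^ (1 + ε)) := by gcongr
      _ = _ := by ring
  have s11 : n * ∑ q ∈ Icc 1 Q, min (low (ε / 3) N q) (N:ℝ) ≤ C1 * (n * u) := by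
    calc n * ∑ q ∈ Icc 1 Q, min (low (ε / 3) N q) (N:ℝ) ≤ n * (C1 * u) := by gcongr
      _ = _ := by ring
  have p1 : 0 ≤ Real.sqrt C2 * (n * u) := by positivity
  have p2 : 0 ≤ C1 * Real.sqrt (en I c Q * Q * (N : ℝ) ^ (1 + ε)) := by positivity
  calc _ ≤ _ := s1
    _ = _ := s2
    _ ≤ C1 * (n * u) + Real.sqrt C2 * Real.sqrt (en I c Q * Q * (N : ℝ) ^ (1 + ε)) := by linarith
    _ ≤ C1 * (n * u) + Real.sqrt C2 * Real.sqrt (en I c Q * Q * (N : ℝ) ^ (1 + ε)) +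
        Real.sqrt C2 * (n * u) + C1 * Real.sqrt (en I c Q * Q * (N : ℝ) ^ (1 + ε)) := by linarith
    _ = _ := by ring

end Pool.Agent.TH926.EH
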