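import Pool.Agent.TH926.EH.Ave

/-!
The mean square of the large conductor part; the exceptional residues; arbitrary sets of residues.
-/

set_option autoImplicit false

open Finset Filter

namespace Pool.Agent.TH926.EH

open Pool.Agent.H398R2.BV (Prim card_prim_le)
open Pool.Agent.Helper112
open Pool.Agent.H442R2.EHI (piAP lis)
open Pool.Agent.H441R3.BV

/-- the cut-off for the conductors -/
noncomputable def cut (δ : ℝ) (N : ℕ) : ℕ := ⌊(N : ℝ) ^ (1 / 2 - δ)⌋₊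

/-- the number of primes up to `N` -/
noncomputable def pc (N : ℕ) : ℝ := (((Icc 1 N).filter (fun p : ℕ => p.Prime)).card : ℝ)

/-- the error term -/
noncomputable def E (N q a : ℕ) : ℝ := |piAP N q a - pc N / (Nat.totient q : ℝ)|

lemma cut_pos {δ : ℝ} (hδ2 : δ ≤ 1 / 2) {N : ℕ} (hN : 1 ≤ N) : 1 ≤ cut δ N := by
  unfold cut
  apply Nat.le_floor
  push_cast
  apply Real.one_le_rpow (by exact_mod_cast hN)
  linarith

/-- logs against powers -/
lemma log_pow_le (k : ℕ) (δ : ℝ) (hδ : 0 < δ) : ∃ C : ℝ, 0 < C ∧ ∀ N : ℕ, 1 ≤ N →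
    (1 + Real.log N) ^ k ≤ C * (N : ℝ) ^ δ := by
  rcases Nat.eq_zero_or_pos k with h | h
  · subst h
    refine ⟨1, one_pos, fun N hN => ?_⟩
    rw [pow_zero, one_mul]
    exact Real.one_le_rpow (by exact_mod_cast hN) hδ.le
  · have hk : (0:ℝ) < k := by exact_mod_cast h
    refine ⟨(1 + k / δ) ^ k, by positivity, fun N hN => ?_⟩
    have hN1 : (1:ℝ) ≤ N := by exact_mod_cast hN
    have hN0 : (0:ℝ) ≤ N := by linarith
    have h1 := Real.log_le_rpow_div hN0 (show 0 < δ / k by positivity)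
    have h2 : (1:ℝ) ≤ (N:ℝ) ^ (δ / k) := Real.one_le_rpow hN1 (by positivity)
    have h3 : 1 + Real.log N ≤ (1 + k / δ) * (N:ℝ) ^ (δ / k) := by
      have h4 : (N:ℝ) ^ (δ / k) / (δ / k) = (k / δ) * (N:ℝ) ^ (δ / k) := by
        field_simp
      rw [h4] at h1
      linarith
    have h5 : 0 ≤ Real.log N := Real.log_natCast_nonneg N
    calc (1 + Real.log N) ^ k ≤ ((1 + k / δ) * (N:ℝ) ^ (δ / k)) ^ k := by
          apply pow_le_pow_left₀ (by linarith) h3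
      _ = (1 + k / δ) ^ k * ((N:ℝ) ^ (δ / k)) ^ k := mul_pow _ _ _
      _ = (1 + k / δ) ^ k * (N:ℝ) ^ δ := by
          congr 1
          rw [← Real.rpow_natCast, ← Real.rpow_mul hN0]
          congr 1
          field_simp

/-- **the mean square of the large conductor part** -/
theorem high_sum (δ : ℝ) (hδ : 0 < δ) (hδ2 : δ < 1 / 2) : ∃ C : ℝ, 0 < C ∧
    ∀ N : ℕ, 1 ≤ N → ∀ Q : ℕ, 1 ≤ Q → Q ≤ N →
    ∑ d ∈ Icc 1 Q, ∑ a ∈ range d, ‖Al N d (cut δ N) (a : ZMod d)‖ ^ 2 ≤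
      C * Q * (N : ℝ) ^ (1 + 3 * δ) := by
  obtain ⟨K, hK0, hK⟩ := log_pow_le 3 δ hδ
  refine ⟨720 + 96 * K + 8 * K, by positivity, fun N hN Q hQ hQN => ?_⟩
  set R := cut δ N with hR
  have hR1 : 1 ≤ R := cut_pos hδ2.le hN
  have hN1 : (1:ℝ) ≤ N := by exact_mod_cast hN
  have hN0 : (0:ℝ) < N := by linarith
  have hQ1 : (1:ℝ) ≤ Q := by exact_mod_cast hQ
  have hQN' : (Q:ℝ) ≤ N := by exact_mod_cast hQN
  rcases Nat.lt_or_ge R Q with hRQ | hRQ
  · have hlN : 0 ≤ Real.log N := Real.log_natCast_nonneg N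
    have hlQ : 0 ≤ Real.log Q := Real.log_natCast_nonneg Q
    have hlQN : Real.log Q ≤ Real.log N := Real.log_le_log (by linarith) hQN'
    have h1 : ∑ d ∈ Icc 1 Q, ∑ a ∈ range d, ‖Al N d R (a : ZMod d)‖ ^ 2 ≤
        ∑ d ∈ Icc 1 Q, (1 / (Nat.totient d : ℝ)) * ∑ f ∈ d.divisors.filter (fun f => f ≠ 1),
          Gl N R f + ∑ _d ∈ Icc 1 Q, 8 * (1 + Real.log N) ^ 3 := by
      rw [← sum_add_distrib]
      apply sum_le_sum
      intro d hd
      rw [mem_Icc] at hd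
      refine (Al_sq' N d R hd.1).trans ?_
      apply add_le_add le_rfl
      have h2 := omega_log d hd.1
      have hd0 : (0:ℝ) < d := by
        have : 0 < d := by omega
        exact_mod_cast this
      have h3 : Real.log d ≤ Real.log N := Real.log_le_log hd0 (by exact_mod_cast hd.2.trans hQN)
      have h4 : (0:ℝ) ≤ d.primeFactors.card := Nat.cast_nonneg _
      have h5 : (d.primeFactors.card : ℝ) ^ 2 ≤ (2 * Real.log N) ^ 2 :=
        pow_le_pow_left₀ h4 (by linarith) 2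
      nlinarith [pow_nonneg hlN 3, pow_nonneg hlN 2]
    have h2 := high_cond N R Q hQ hR1
    have hNδ : (1:ℝ) ≤ (N:ℝ) ^ (1 / 2 - δ) := Real.one_le_rpow hN1 (by linarith)
    have hRN : (N:ℝ) ^ (1 / 2 - δ) < R + 1 := Nat.lt_floor_add_one _
    have hR1' : (1:ℝ) ≤ R := by exact_mod_cast hR1
    have hR2 : (N:ℝ) ^ (1 / 2 - δ) ≤ 2 * R := by linarith
    have hRQ' : (R:ℝ) + 1 ≤ Q := by exact_mod_cast hRQ
    have hQ2 : (N:ℝ) ^ (1 / 2 - δ) ≤ Q := by linarith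
    have h3 : (N:ℝ) ^ 2 / R ≤ 2 * Q * (N:ℝ) ^ (1 + 2 * δ) := by
      rw [div_le_iff₀ (by linarith)]
      have e1 : (N:ℝ) ^ 2 = (N:ℝ) ^ (1 / 2 - δ) * (N:ℝ) ^ (1 / 2 - δ) * (N:ℝ) ^ (1 + 2 * δ) := by
        rw [← Real.rpow_add hN0, ← Real.rpow_add hN0, ← Real.rpow_natCast]
        congr 1
        push_cast
        ring
      rw [e1]
      calc (N:ℝ) ^ (1 / 2 - δ) * (N:ℝ) ^ (1 / 2 - δ) * (N:ℝ) ^ (1 + 2 * δ) ≤
          Q * (2 * R) * (N:ℝ) ^ (1 + 2 * δ) := by gcongr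
        _ = _ := by ring
    have h4 : ((Nat.log 2 Q : ℝ) + 1) * (1 + Real.log Q) ^ 2 ≤ 2 * (1 + Real.log N) ^ 3 := by
      have h5 := nlog_le Q hQ
      have h6 : (0:ℝ) ≤ Nat.log 2 Q := Nat.cast_nonneg _
      calc ((Nat.log 2 Q : ℝ) + 1) * (1 + Real.log Q) ^ 2 ≤
          (2 * (1 + Real.log N)) * (1 + Real.log N) ^ 2 := by
            apply mul_le_mul
            · linarith
            · apply pow_le_pow_left₀ (by linarith)
              linarith
            · positivity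
            · positivity
        _ = _ := by ring
    have h5 := hK N hN
    have h6 : (1:ℝ) ≤ (N:ℝ) ^ (3 * δ) := Real.one_le_rpow hN1 (by positivity)
    have h7 : (N:ℝ) ^ (1 + 3 * δ) = N * (N:ℝ) ^ (3 * δ) := by
      rw [Real.rpow_add hN0, Real.rpow_one]
    have h8 : (N:ℝ) ^ δ * (N:ℝ) ^ (1 + 2 * δ) = (N:ℝ) ^ (1 + 3 * δ) := by
      rw [← Real.rpow_add hN0]
      congr 1
      ring
    have h9 : (N:ℝ) ^ δ ≤ (N:ℝ) ^ (1 + 3 * δ) := by
      apply Real.rpow_le_rpow_of_exponent_le hN1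
      linarith
    calc ∑ d ∈ Icc 1 Q, ∑ a ∈ range d, ‖Al N d R (a : ZMod d)‖ ^ 2
        ≤ _ := h1
      _ ≤ (720 * N * Q + (Nat.log 2 Q + 1) * (1 + Real.log Q) ^ 2 * (24 * (N:ℝ) ^ 2 / R)) +
          Q * (8 * (1 + Real.log N) ^ 3) := by
          apply add_le_add h2
          rw [sum_const, Nat.card_Icc, nsmul_eq_mul, Nat.add_sub_cancel]
      _ = 720 * N * Q + (((Nat.log 2 Q : ℝ) + 1) * (1 + Real.log Q) ^ 2) * (24 * ((N:ℝ) ^ 2 / R)) +
          Q * (8 * (1 + Real.log N) ^ 3) := by ring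
      _ ≤ 720 * (N * (N:ℝ) ^ (3 * δ)) * Q +
          (2 * (K * (N:ℝ) ^ δ)) * (24 * (2 * Q * (N:ℝ) ^ (1 + 2 * δ))) +
          Q * (8 * (K * (N:ℝ) ^ (1 + 3 * δ))) := by
          have A1 : 720 * (N:ℝ) * Q ≤ 720 * (N * (N:ℝ) ^ (3 * δ)) * Q := by
            have : (N:ℝ) * 1 ≤ N * (N:ℝ) ^ (3 * δ) := by gcongr
            have : (N:ℝ) ≤ N * (N:ℝ) ^ (3 * δ) := by linarith
            gcongr
          have A2 : (((Nat.log 2 Q : ℝ) + 1) * (1 + Real.log Q) ^ 2) * (24 * ((N:ℝ) ^ 2 / R)) ≤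
              (2 * (K * (N:ℝ) ^ δ)) * (24 * (2 * Q * (N:ℝ) ^ (1 + 2 * δ))) := by
            apply mul_le_mul _ _ (by positivity) (by positivity)
            · linarith
            · linarith
          have A3 : (Q:ℝ) * (8 * (1 + Real.log N) ^ 3) ≤
              Q * (8 * (K * (N:ℝ) ^ (1 + 3 * δ))) := by
            have : K * (N:ℝ) ^ δ ≤ K * (N:ℝ) ^ (1 + 3 * δ) := by gcongr
            have : (1 + Real.log N) ^ 3 ≤ K * (N:ℝ) ^ (1 + 3 * δ) := by linarith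
            gcongr
          linarith
      _ = 720 * (N * (N:ℝ) ^ (3 * δ)) * Q +
          96 * K * Q * ((N:ℝ) ^ δ * (N:ℝ) ^ (1 + 2 * δ)) +
          Q * (8 * (K * (N:ℝ) ^ (1 + 3 * δ))) := by ring
      _ = _ := by rw [h8, h7]; ring
  · have h0 : ∑ d ∈ Icc 1 Q, ∑ a ∈ range d, ‖Al N d R (a : ZMod d)‖ ^ 2 = 0 := by
      apply sum_eq_zero
      intro d hd
      rw [mem_Icc] at hd
      apply sum_eq_zero
      intro a _
      rw [Al_zero N d R hd.1 (by omega)]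
      simp
    rw [h0]
    positivity

/-- the part of the error which is the same for all the residues -/
noncomputable def low (δ : ℝ) (N d : ℕ) : ℝ :=
  (1 / (Nat.totient d : ℝ)) * ∑ f ∈ d.divisors.filter (fun f => f ≠ 1), Gs N (cut δ N) f +
    2 * d.primeFactors.card

lemma low_nonneg (δ : ℝ) (N d : ℕ) : 0 ≤ low δ N d := by
  unfold low
  have : 0 ≤ ∑ f ∈ d.divisors.filter (fun f => f ≠ 1), Gs N (cut δ N) f :=
    sum_nonneg fun f _ => Gs_nonneg _ _ _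
  positivity

lemma E_le (δ : ℝ) (N d a : ℕ) (hd : 1 ≤ d) (ha : a.Coprime d) :
    E N d a ≤ low δ N d + ‖Al N d (cut δ N) (a : ZMod d)‖ := point N d (cut δ N) a hd ha

lemma E_triv (N d a : ℕ) (hd : 1 ≤ d) : E N d a ≤ N := by
  unfold E piAP pc
  have hφ : (1 : ℝ) ≤ Nat.totient d := by exact_mod_cast Nat.totient_pos.mpr (by omega)
  have h1 : ∀ P : ℕ → Prop, ∀ _ : DecidablePred P, (((Icc 1 N).filter P).card : ℝ) ≤ N := by
    intro P _
    have : ((Icc 1 N).filter P).card ≤ N := by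
      refine (card_filter_le _ _).trans ?_
      simp
    exact_mod_cast this
  have h2 := h1 (fun p : ℕ => p.Prime) inferInstance
  have h3 : (((Icc 1 N).filter (fun p : ℕ => p.Prime)).card : ℝ) / (Nat.totient d : ℝ) ≤ N :=
    (div_le_self (Nat.cast_nonneg _) hφ).trans h2
  have h4 : 0 ≤ (((Icc 1 N).filter (fun p : ℕ => p.Prime)).card : ℝ) / (Nat.totient d : ℝ) := by
    positivity
  rw [abs_le]
  constructor
  · have : (0:ℝ) ≤ (((Icc 1 N).filter (fun p : ℕ => p.Prime ∧ p ≡ a [MOD d])).card : ℝ) :=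
      Nat.cast_nonneg _
    linarith
  · have := h1 (fun p : ℕ => p.Prime ∧ p ≡ a [MOD d]) inferInstance
    linarith

/-- the part of the error which is the same for all the residues, on average -/
theorem low_total (U : ℕ) (δ : ℝ) (hδ : 0 < δ) (η : ℝ) (hη : 0 < η) :
    ∃ C : ℝ, 0 ≤ C ∧ ∃ x0 : ℕ, 3 ≤ x0 ∧
    ∀ N : ℕ, x0 ≤ N → ∀ Q : ℕ, (Q : ℝ) ≤ (N : ℝ) ^ (1 - η) →
    ∑ d ∈ Icc 1 Q, low δ N d ≤ C * (N / Real.log N ^ U) := by
  obtain ⟨C, hC0, x1, hx1, hC⟩ := low_cond (U + 2) δ hδ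
  have ev : ∀ᶠ X : ℝ in atTop, (1:ℝ) ≤ Real.log X ∧ 1 * Real.log X ^ (U + 1) ≤ X ^ η :=
    (Real.tendsto_log_atTop.eventually (eventually_ge_atTop 1)).and
      (Pool.Agent.H398R2.BV.ev_log 1 (U + 1) η hη)
  have evN := tendsto_natCast_atTop_atTop (R := ℝ) |>.eventually ev
  obtain ⟨x2, hx2⟩ := eventually_atTop.1 evN
  refine ⟨4 * C + 4, by positivity, max 3 (max x1 x2), le_max_left _ _, fun N hN Q hQ => ?_⟩
  have hNx1 : x1 ≤ N := ((le_max_left _ _).trans (le_max_right _ _)).trans hN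
  have hNx2 : x2 ≤ N := ((le_max_right _ _).trans (le_max_right _ _)).trans hN
  have hN3 : 3 ≤ N := (le_max_left _ _).trans hN
  obtain ⟨w1, w2⟩ := hx2 N hNx2
  set Λ := Real.log N with hΛ
  have hN1 : (1:ℝ) ≤ N := by
    have : 1 ≤ N := by omega
    exact_mod_cast this
  have hN0 : (0:ℝ) < N := by linarith
  have hΛ0 : 0 < Λ := by linarith
  rcases Nat.eq_zero_or_pos Q with hQ0 | hQ1
  · subst hQ0
    simp only [show Icc 1 0 = (∅ : Finset ℕ) from rfl, sum_empty]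
    positivity
  have hQ1' : (1:ℝ) ≤ Q := by exact_mod_cast hQ1
  have hQN : (Q:ℝ) ≤ N := by
    refine hQ.trans ?_
    calc (N:ℝ) ^ (1 - η) ≤ (N:ℝ) ^ (1:ℝ) := by
          apply Real.rpow_le_rpow_of_exponent_le hN1
          linarith
      _ = N := Real.rpow_one _
  have hlQ : 0 ≤ Real.log Q := Real.log_natCast_nonneg Q
  have hlQN : Real.log Q ≤ Λ := Real.log_le_log (by linarith) hQN
  unfold low
  rw [sum_add_distrib]
  have h1 := low_sum N (cut δ N) Q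
  have h2 := hC N hNx1 (cut δ N) (Nat.floor_le (by positivity))
  have h3 : ∑ d ∈ Icc 1 Q, (2 * (d.primeFactors.card : ℝ)) ≤ 4 * (N / Λ ^ U) := by
    have h4 : ∀ d ∈ Icc 1 Q, (2 * (d.primeFactors.card : ℝ)) ≤ 4 * Λ := by
      intro d hd
      rw [mem_Icc] at hd
      have h5 := omega_log d hd.1
      have hd0 : (0:ℝ) < d := by
        have : 0 < d := by omega
        exact_mod_cast this
      have hdQ : (d:ℝ) ≤ Q := by exact_mod_cast hd.2
      have h6 : Real.log d ≤ Λ := Real.log_le_log hd0 (hdQ.trans hQN)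
      linarith
    refine (sum_le_sum h4).trans ?_
    rw [sum_const, Nat.card_Icc, nsmul_eq_mul, Nat.add_sub_cancel, mul_div_assoc',
      le_div_iff₀ (by positivity)]
    calc (Q:ℝ) * (4 * Λ) * Λ ^ U ≤ (N:ℝ) ^ (1 - η) * (4 * Λ) * Λ ^ U := by gcongr
      _ = 4 * ((N:ℝ) ^ (1 - η) * (1 * Λ ^ (U + 1))) := by ring
      _ ≤ 4 * ((N:ℝ) ^ (1 - η) * (N:ℝ) ^ η) := by gcongr
      _ = 4 * N := by
          rw [← Real.rpow_add hN0]
          have : (1:ℝ) - η + η = 1 := by ring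
          rw [this, Real.rpow_one]
  have h4 : (1 + Real.log Q) ^ 2 ≤ 4 * Λ ^ 2 := by
    have : (1 + Real.log Q) ^ 2 ≤ (2 * Λ) ^ 2 := by
      apply pow_le_pow_left₀ (by linarith)
      linarith
    linarith [mul_pow 2 Λ 2]
  have h5 : ∑ d ∈ Icc 1 Q, (1 / (Nat.totient d : ℝ)) *
      ∑ f ∈ d.divisors.filter (fun f => f ≠ 1), Gs N (cut δ N) f ≤ 4 * C * (N / Λ ^ U) := by
    refine h1.trans ?_
    calc (1 + Real.log Q) ^ 2 * ∑ f ∈ Icc 2 (cut δ N), (1 / (Nat.totient f : ℝ)) *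
          ∑ ψ ∈ Prim f, ‖PS N f ψ‖
        ≤ (4 * Λ ^ 2) * (C * (N / Λ ^ (U + 2))) := by
          apply mul_le_mul h4 h2 _ (by positivity)
          exact sum_nonneg fun f _ => mul_nonneg (by positivity)
            (sum_nonneg fun _ _ => norm_nonneg _)
      _ = 4 * C * (N / Λ ^ U) := by
          rw [pow_add]
          field_simp
  calc _ ≤ 4 * C * (N / Λ ^ U) + 4 * (N / Λ ^ U) := add_le_add h5 h3
    _ = _ := by ring

end Pool.Agent.TH926.EH
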