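import Pool.Agent.TH926.EH.Fam

/-!
Versions with powers of the logarithm instead of small powers.
-/

set_option autoImplicit false

open Finset Filter

namespace Pool.Agent.TH926.EH

open Pool.Agent.H398R2.BV (Prim card_prim_le)
open Pool.Agent.Helper112
open Pool.Agent.H442R2.EHI (piAP lis)
open Pool.Agent.H441R3.BV

lemma log_ge_one {N : ℕ} (hN : 3 ≤ N) : 1 ≤ Real.log N := by
  rw [Real.le_log_iff_exp_le (by exact_mod_cast (by omega : 0 < N))]
  have : (3 : ℝ) ≤ N := by exact_mod_cast hN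
  linarith [Real.exp_one_lt_d9]

/-- small conductors: the primitive characters -/
theorem low_cond2 (U : ℕ) : ∃ C : ℝ, 0 ≤ C ∧ ∃ x0 : ℕ, 3 ≤ x0 ∧
    ∀ N : ℕ, x0 ≤ N → ∀ D : ℕ, (D : ℝ) * Real.log N ^ (U + 2) ≤ Real.sqrt N →
    ∑ f ∈ Icc 2 D, (1 / (Nat.totient f : ℝ)) * ∑ ψ ∈ Prim f, ‖PS N f ψ‖ ≤
      C * (N / Real.log N ^ U) := by
  set V := U + 4 with hV
  set b := V + 2 with hb
  obtain ⟨x1, hsm⟩ := small_total (U + 2) (b + 1)
  set C1 : ℝ := 9216 * ((2 * (0 + V + 2) : ℕ) + 2) * ((0 + V + 9 : ℕ) : ℝ) with hC1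
  have hC1' : 0 ≤ C1 := by rw [hC1]; positivity
  have evl := floor_log_tendsto.eventually (ev_l V (0 + V + 9) (2 * (0 + V + 2)) C1)
  have evx : ∀ᶠ X : ℝ in atTop, (4:ℝ) ≤ Real.log X ∧ 4 ≤ X :=
    (Real.tendsto_log_atTop.eventually (eventually_ge_atTop 4)).and (eventually_ge_atTop 4)
  have evN := tendsto_natCast_atTop_atTop (R := ℝ) |>.eventually evx
  obtain ⟨x0, hx0⟩ := eventually_atTop.1 (evl.and (evN.and (eventually_ge_atTop x1)))
  refine ⟨(1 + 2 ^ V) + 15 * C1, by positivity, max x0 3, le_max_right _ _,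
    fun N hN' D hD => ?_⟩
  have hN : x0 ≤ N := (le_max_left _ _).trans hN'
  obtain ⟨⟨l1, l2, l3⟩, ⟨w1, w3⟩, hNx1⟩ := hx0 N hN
  have hN4 : 4 ≤ N := by exact_mod_cast w3
  have hNr : (0:ℝ) < N := by linarith
  set Λ := Real.log N with hΛ
  set L := ⌊Λ⌋₊ with hL
  have hΛ0 : 0 < Λ := by linarith
  have hLΛ : (L:ℝ) ≤ Λ := Nat.floor_le hΛ0.le
  have hL1 : Λ < L + 1 := Nat.lt_floor_add_one Λ
  have hL2 : Λ ≤ 2 * L := by linarith
  have hL3 : (3:ℝ) < L := by linarith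
  have hL1' : 1 ≤ L := by
    have : (1:ℝ) ≤ L := by linarith
    exact_mod_cast this
  rcases Nat.eq_zero_or_pos D with hD0 | hD1
  · subst hD0
    simp only [show Icc 2 0 = (∅ : Finset ℕ) from rfl, sum_empty]
    positivity
  have hsq0 : 0 ≤ Real.sqrt N := Real.sqrt_nonneg _
  have hsq2 : Real.sqrt (N:ℝ) ^ 2 = (N:ℝ) := Real.sq_sqrt hNr.le
  have hΛp : 1 ≤ Λ ^ (U + 2) := one_le_pow₀ (by linarith)
  have hD1r : (0:ℝ) ≤ D := Nat.cast_nonneg D
  have hD2 : D ^ 2 ≤ N := by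
    have h1 : (D:ℝ) ≤ Real.sqrt N := by nlinarith
    have h2 : (D:ℝ) ^ 2 ≤ (N:ℝ) := by
      calc (D:ℝ) ^ 2 ≤ Real.sqrt (N:ℝ) ^ 2 := pow_le_pow_left₀ (Nat.cast_nonneg D) h1 2
        _ = (N:ℝ) := hsq2
    exact_mod_cast h2
  have hne : ({N} : Finset ℕ).Nonempty := singleton_nonempty N
  have hcard : ((({N} : Finset ℕ).card : ℕ) : ℝ) ≤ (L:ℝ) ^ 0 := by simp
  have hcond := cond_sum N D L V b Λ C1 U rfl w1 (by omega) hC1' hD1 hD2 hL1' rfl hLΛ hL2 {N} hne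
    (fun F0 hF0 => hsm N hNx1 F0 hF0 {N} hne (by
      intro v hv
      rw [mem_singleton] at hv
      subst hv
      exact ⟨by omega, le_rfl⟩))
    (fun F hF1 hF2 => level_core V 0 L N F C1 hC1 l1 l2 l3 hLΛ hL1 {N} hne
      (fun v hv => (mem_singleton.1 hv).le) hcard hF1 hF2)
  have h1 : ∑ f ∈ Icc 2 D, (1 / (Nat.totient f : ℝ)) * ∑ ψ ∈ Prim f, ‖PS N f ψ‖ ≤
      ∑ d ∈ Icc 1 D, (1 / (Nat.totient d : ℝ)) * ∑ f ∈ d.divisors.filter (fun f => f ≠ 1),
        ∑ ψ ∈ Prim f, MX {N} hne f ψ := by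
    have h2 : ∀ f ∈ Icc 2 D, (1 / (Nat.totient f : ℝ)) * ∑ ψ ∈ Prim f, ‖PS N f ψ‖ ≤
        (1 / (Nat.totient f : ℝ)) * ∑ e ∈ f.divisors.filter (fun e => e ≠ 1),
        ∑ ψ ∈ Prim e, MX {N} hne e ψ := by
      intro f hf
      rw [mem_Icc] at hf
      apply mul_le_mul_of_nonneg_left _ (by positivity)
      have h3 : f ∈ f.divisors.filter (fun e => e ≠ 1) := by
        rw [mem_filter, Nat.mem_divisors]
        exact ⟨⟨dvd_rfl, by omega⟩, by omega⟩
      have h4 := single_le_sum (f := fun e => ∑ ψ ∈ Prim e, MX {N} hne e ψ)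
        (fun e _ => sum_nonneg fun ψ _ => MX_nonneg _ _ _ _) h3
      refine le_trans (le_of_eq ?_) h4
      apply sum_congr rfl
      intro ψ _
      exact (MX_single N f ψ).symm
    refine (sum_le_sum h2).trans ?_
    apply sum_le_sum_of_subset_of_nonneg
    · exact Icc_subset_Icc_left (by norm_num)
    · intro d _ _
      apply mul_nonneg (by positivity)
      exact sum_nonneg fun e _ => sum_nonneg fun ψ _ => MX_nonneg _ _ _ _
  refine (h1.trans hcond).trans ?_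
  have h5 : (D:ℝ) * Real.sqrt N * Real.log Λ ^ 2 ≤ N / Λ ^ U := by
    rw [le_div_iff₀ (by positivity)]
    have h6 : Real.log Λ ≤ Λ := (Real.log_le_sub_one_of_pos hΛ0).trans (by linarith)
    have h7 : 0 ≤ Real.log Λ := Real.log_nonneg (by linarith)
    calc (D:ℝ) * Real.sqrt N * Real.log Λ ^ 2 * Λ ^ U ≤
        (D:ℝ) * Real.sqrt N * Λ ^ 2 * Λ ^ U := by gcongr
      _ = Real.sqrt N * ((D:ℝ) * Λ ^ (U + 2)) := by ring
      _ ≤ Real.sqrt N * Real.sqrt N := by gcongr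
      _ = N := by rw [← sq, hsq2]
  have h6 : 15 * C1 * ((D:ℝ) * Real.sqrt N * Real.log Λ ^ 2) ≤ 15 * C1 * (N / Λ ^ U) := by
    gcongr
  calc (1 + 2 ^ V) * ((N:ℝ) / Λ ^ U) + 15 * C1 * ((D:ℝ) * Real.sqrt N * Real.log (Real.log N) ^ 2)
      ≤ (1 + 2 ^ V) * ((N:ℝ) / Λ ^ U) + 15 * C1 * (N / Λ ^ U) := by
        rw [← hΛ]
        gcongr
    _ = _ := by ring

/-- the cut-off for the conductors -/
noncomputable def cut2 (V : ℝ) (N : ℕ) : ℕ := max 1 ⌊Real.sqrt N / V⌋₊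

lemma cut2_pos (V : ℝ) (N : ℕ) : 1 ≤ cut2 V N := le_max_left _ _

lemma cut2_ge (V : ℝ) (hV : 0 < V) (N : ℕ) : Real.sqrt N ≤ 2 * V * cut2 V N := by
  have h1 : Real.sqrt N / V < ⌊Real.sqrt N / V⌋₊ + 1 := Nat.lt_floor_add_one _
  have h2 : ((⌊Real.sqrt N / V⌋₊ : ℕ) : ℝ) ≤ cut2 V N := by
    exact_mod_cast le_max_right 1 ⌊Real.sqrt N / V⌋₊
  have h3 : (1:ℝ) ≤ cut2 V N := by exact_mod_cast cut2_pos V N
  have h4 : Real.sqrt N / V ≤ 2 * cut2 V N := by linarith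
  rw [div_le_iff₀ hV] at h4
  linarith

lemma cut2_lt (V : ℝ) (hV : 0 < V) (N Q : ℕ) (h : cut2 V N < Q) : Real.sqrt N ≤ V * Q := by
  have h1 : Real.sqrt N / V < ⌊Real.sqrt N / V⌋₊ + 1 := Nat.lt_floor_add_one _
  have h2 : ⌊Real.sqrt N / V⌋₊ + 1 ≤ Q := by
    have := le_max_right 1 ⌊Real.sqrt N / V⌋₊
    unfold cut2 at h
    omega
  have h3 : ((⌊Real.sqrt N / V⌋₊ : ℕ) : ℝ) + 1 ≤ Q := by exact_mod_cast h2
  have h4 : Real.sqrt N / V ≤ Q := by linarith
  rw [div_le_iff₀ hV] at h4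
  linarith

/-- **the mean square of the large conductor part** -/
theorem high_sum2 (N : ℕ) (hN : 3 ≤ N) (V : ℝ) (hV : Real.log N ≤ V) (Q : ℕ) (hQ : 1 ≤ Q)
    (hQN : Q ≤ N) :
    ∑ d ∈ Icc 1 Q, ∑ a ∈ range d, ‖Al N d (cut2 V N) (a : ZMod d)‖ ^ 2 ≤
      1552 * Q * N * V ^ 5 := by
  have hl1 := log_ge_one hN
  have hV1 : 1 ≤ V := hl1.trans hV
  have hV0 : 0 < V := by linarith
  set R := cut2 V N with hR
  have hR1 : 1 ≤ R := cut2_pos V N
  have hN1 : (1:ℝ) ≤ N := by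
    have : 1 ≤ N := by omega
    exact_mod_cast this
  have hN0 : (0:ℝ) < N := by linarith
  have hQ1 : (1:ℝ) ≤ Q := by exact_mod_cast hQ
  have hQN' : (Q:ℝ) ≤ N := by exact_mod_cast hQN
  have hV5 : (1:ℝ) ≤ V ^ 5 := one_le_pow₀ hV1
  rcases Nat.lt_or_ge R Q with hRQ | hRQ
  · have hlN : 0 ≤ Real.log N := Real.log_natCast_nonneg N
    have hlQ : 0 ≤ Real.log Q := Real.log_natCast_nonneg Q
    have hlQN : Real.log Q ≤ Real.log N := Real.log_le_log (by linarith) hQN'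
    have h1 : ∑ d ∈ Icc 1 Q, ∑ a ∈ range d, ‖Al N d R (a : ZMod d)‖ ^ 2 ≤
        ∑ d ∈ Icc 1 Q, (1 / (Nat.totient d : ℝ)) * ∑ f ∈ d.divisors.filter (fun f => f ≠ 1),
          Gl N R f + ∑ _d ∈ Icc 1 Q, 8 * V ^ 5 := by
      rw [← sum_add_distrib]
      apply sum_le_sum
      intro d hd
      rw [mem_Icc] at hd
      refine (Al_sq' N d R hd.1).trans ?_
      apply add_le_add le_rfl
      have h2 := omega_log d hd.1
      have hd0 : (0:ℝ) < d := by
        have : 0 < d := by omega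
        exact_mod_cast this
      have h3 : Real.log d ≤ Real.log N := Real.log_le_log hd0 (by exact_mod_cast hd.2.trans hQN)
      have h4 : (0:ℝ) ≤ d.primeFactors.card := Nat.cast_nonneg _
      have h5 : (d.primeFactors.card : ℝ) ^ 2 ≤ (2 * V) ^ 2 :=
        pow_le_pow_left₀ h4 (by linarith) 2
      have h6 : V ^ 2 ≤ V ^ 5 := pow_le_pow_right₀ hV1 (by norm_num)
      nlinarith
    have h2 := high_cond N R Q hQ hR1
    have hR1' : (1:ℝ) ≤ R := by exact_mod_cast hR1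
    have hs2 : Real.sqrt N * Real.sqrt N = N := Real.mul_self_sqrt hN0.le
    have hs0 : 0 ≤ Real.sqrt N := Real.sqrt_nonneg _
    have g1 : Real.sqrt N ≤ 2 * V * R := cut2_ge V hV0 N
    have g2 : Real.sqrt N ≤ V * Q := cut2_lt V hV0 N Q hRQ
    have h3 : (N:ℝ) ^ 2 / R ≤ 2 * V ^ 2 * N * Q := by
      rw [div_le_iff₀ (by linarith)]
      calc (N:ℝ) ^ 2 = N * (Real.sqrt N * Real.sqrt N) := by rw [hs2]; ring
        _ ≤ N * ((2 * V * R) * (V * Q)) := by gcongr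
        _ = _ := by ring
    have h4 : ((Nat.log 2 Q : ℝ) + 1) * (1 + Real.log Q) ^ 2 ≤ 16 * V ^ 3 := by
      have h5 := nlog_le Q hQ
      have h6 : (0:ℝ) ≤ Nat.log 2 Q := Nat.cast_nonneg _
      calc ((Nat.log 2 Q : ℝ) + 1) * (1 + Real.log Q) ^ 2 ≤ (4 * V) * (2 * V) ^ 2 := by
            apply mul_le_mul
            · linarith
            · apply pow_le_pow_left₀ (by linarith)
              linarith
            · positivity
            · positivity
        _ = _ := by ring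
    calc ∑ d ∈ Icc 1 Q, ∑ a ∈ range d, ‖Al N d R (a : ZMod d)‖ ^ 2
        ≤ _ := h1
      _ ≤ (720 * N * Q + (Nat.log 2 Q + 1) * (1 + Real.log Q) ^ 2 * (24 * (N:ℝ) ^ 2 / R)) +
          Q * (8 * V ^ 5) := by
          apply add_le_add h2
          rw [sum_const, Nat.card_Icc, nsmul_eq_mul, Nat.add_sub_cancel]
      _ = 720 * N * Q + (((Nat.log 2 Q : ℝ) + 1) * (1 + Real.log Q) ^ 2) * (24 * ((N:ℝ) ^ 2 / R)) +
          Q * (8 * V ^ 5) := by ring
      _ ≤ 720 * N * Q * V ^ 5 + (16 * V ^ 3) * (24 * (2 * V ^ 2 * N * Q)) +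
          Q * N * (8 * V ^ 5) := by
          have A1 : 720 * (N:ℝ) * Q ≤ 720 * N * Q * V ^ 5 := by
            have : 0 ≤ 720 * (N:ℝ) * Q := by positivity
            nlinarith
          have A2 : (((Nat.log 2 Q : ℝ) + 1) * (1 + Real.log Q) ^ 2) * (24 * ((N:ℝ) ^ 2 / R)) ≤
              (16 * V ^ 3) * (24 * (2 * V ^ 2 * N * Q)) := by
            apply mul_le_mul h4 _ (by positivity) (by positivity)
            linarith
          have A3 : (Q:ℝ) * (8 * V ^ 5) ≤ Q * N * (8 * V ^ 5) := by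
            have : (Q:ℝ) * 1 ≤ Q * N := by gcongr
            have h0 : 0 ≤ 8 * V ^ 5 := by positivity
            nlinarith
          linarith
      _ ≤ 1552 * Q * N * V ^ 5 := by
          have : 0 ≤ (Q:ℝ) * N * V ^ 5 := by positivity
          nlinarith
  · have h0 : ∑ d ∈ Icc 1 Q, ∑ a ∈ range d, ‖Al N d R (a : ZMod d)‖ ^ 2 = 0 := by
      apply sum_eq_zero
      intro d hd
      rw [mem_Icc] at hd
      apply sum_eq_zero
      intro a _
      rw [Al_zero N d R hd.1 (by omega)]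
      simp
    rw [h0]
    positivity

/-- the part of the error which is the same for all the residues -/
noncomputable def low2 (V : ℝ) (N d : ℕ) : ℝ :=
  (1 / (Nat.totient d : ℝ)) * ∑ f ∈ d.divisors.filter (fun f => f ≠ 1), Gs N (cut2 V N) f +
    2 * d.primeFactors.card

lemma low2_nonneg (V : ℝ) (N d : ℕ) : 0 ≤ low2 V N d := by
  unfold low2
  have : 0 ≤ ∑ f ∈ d.divisors.filter (fun f => f ≠ 1), Gs N (cut2 V N) f :=
    sum_nonneg fun f _ => Gs_nonneg _ _ _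
  positivity

lemma E_le2 (V : ℝ) (N d a : ℕ) (hd : 1 ≤ d) (ha : a.Coprime d) :
    E N d a ≤ low2 V N d + ‖Al N d (cut2 V N) (a : ZMod d)‖ := point N d (cut2 V N) a hd ha

/-- the part of the error which is the same for all the residues, on average -/
theorem low_total2 (U : ℕ) : ∃ C : ℝ, 0 ≤ C ∧ ∃ x0 : ℕ, 3 ≤ x0 ∧
    ∀ N : ℕ, x0 ≤ N → ∀ V : ℝ, Real.log N ^ (U + 4) ≤ V → ∀ Q : ℕ,
    (Q : ℝ) * Real.log N ^ (U + 1) ≤ N →
    ∑ d ∈ Icc 1 Q, low2 V N d ≤ C * (N / Real.log N ^ U) := by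
  obtain ⟨C, hC0, x1, hx1, hC⟩ := low_cond2 (U + 2)
  have ev : ∀ᶠ X : ℝ in atTop, 1 * Real.log X ^ (U + 4) ≤ X ^ (1 / 2 : ℝ) :=
    Pool.Agent.H398R2.BV.ev_log 1 (U + 4) (1 / 2) (by norm_num)
  have evN := tendsto_natCast_atTop_atTop (R := ℝ) |>.eventually ev
  obtain ⟨x2, hx2⟩ := eventually_atTop.1 evN
  refine ⟨4 * C + 4, by positivity, max x1 x2, hx1.trans (le_max_left _ _),
    fun N hN V hV Q hQ => ?_⟩
  have hNx1 : x1 ≤ N := (le_max_left _ _).trans hN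
  have hNx2 : x2 ≤ N := (le_max_right _ _).trans hN
  have hN3 : 3 ≤ N := hx1.trans hNx1
  have w2 := hx2 N hNx2
  rw [one_mul, ← Real.sqrt_eq_rpow] at w2
  have hl1 := log_ge_one hN3
  set Λ := Real.log N with hΛ
  have hN1 : (1:ℝ) ≤ N := by
    have : 1 ≤ N := by omega
    exact_mod_cast this
  have hN0 : (0:ℝ) < N := by linarith
  have hΛ0 : 0 < Λ := by linarith
  rcases Nat.eq_zero_or_pos Q with hQ0 | hQ1
  · subst hQ0
    simp only [show Icc 1 0 = (∅ : Finset ℕ) from rfl, sum_empty]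
    positivity
  have hQ1' : (1:ℝ) ≤ Q := by exact_mod_cast hQ1
  have hΛU : 1 ≤ Λ ^ (U + 1) := one_le_pow₀ hl1
  have hQN : (Q:ℝ) ≤ N := by nlinarith
  have hlQ : 0 ≤ Real.log Q := Real.log_natCast_nonneg Q
  have hlQN : Real.log Q ≤ Λ := Real.log_le_log (by linarith) hQN
  have hV0 : 0 < V := lt_of_lt_of_le (by positivity) hV
  unfold low2
  rw [sum_add_distrib]
  have h1 := low_sum N (cut2 V N) Q
  have hcut : (cut2 V N : ℝ) * Λ ^ (U + 2 + 2) ≤ Real.sqrt N := by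
    unfold cut2
    push_cast
    rcases max_choice (1:ℝ) ((⌊Real.sqrt N / V⌋₊ : ℕ) : ℝ) with h | h
    · rw [h, one_mul]
      exact w2
    · rw [h]
      calc ((⌊Real.sqrt N / V⌋₊ : ℕ) : ℝ) * Λ ^ (U + 2 + 2) ≤ (Real.sqrt N / V) * V := by
            apply mul_le_mul (Nat.floor_le (by positivity)) hV (by positivity) (by positivity)
        _ = Real.sqrt N := by field_simp
  have h2 := hC N hNx1 (cut2 V N) hcut
  have h3 : ∑ d ∈ Icc 1 Q, (2 * (d.primeFactors.card : ℝ)) ≤ 4 * (N / Λ ^ U) := by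
    have h4 : ∀ d ∈ Icc 1 Q, (2 * (d.primeFactors.card : ℝ)) ≤ 4 * Λ := by
      intro d hd
      rw [mem_Icc] at hd
      have h5 := omega_log d hd.1
      have hd0 : (0:ℝ) < d := by
        have : 0 < d := by omega
        exact_mod_cast this
      have hdQ : (d:ℝ) ≤ Q := by exact_mod_cast hd.2
      have h6 : Real.log d ≤ Λ := Real.log_le_log hd0 (hdQ.trans hQN)
      linarith
    refine (sum_le_sum h4).trans ?_
    rw [sum_const, Nat.card_Icc, nsmul_eq_mul, Nat.add_sub_cancel, mul_div_assoc',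
      le_div_iff₀ (by positivity)]
    calc (Q:ℝ) * (4 * Λ) * Λ ^ U = 4 * (Q * Λ ^ (U + 1)) := by ring
      _ ≤ 4 * N := by gcongr
  have h4 : (1 + Real.log Q) ^ 2 ≤ 4 * Λ ^ 2 := by
    have : (1 + Real.log Q) ^ 2 ≤ (2 * Λ) ^ 2 := by
      apply pow_le_pow_left₀ (by linarith)
      linarith
    linarith [mul_pow 2 Λ 2]
  have h5 : ∑ d ∈ Icc 1 Q, (1 / (Nat.totient d : ℝ)) *
      ∑ f ∈ d.divisors.filter (fun f => f ≠ 1), Gs N (cut2 V N) f ≤ 4 * C * (N / Λ ^ U) := by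
    refine h1.trans ?_
    calc (1 + Real.log Q) ^ 2 * ∑ f ∈ Icc 2 (cut2 V N), (1 / (Nat.totient f : ℝ)) *
          ∑ ψ ∈ Prim f, ‖PS N f ψ‖
        ≤ (4 * Λ ^ 2) * (C * (N / Λ ^ (U + 2))) := by
          apply mul_le_mul h4 h2 _ (by positivity)
          exact sum_nonneg fun f _ => mul_nonneg (by positivity)
            (sum_nonneg fun _ _ => norm_nonneg _)
      _ = 4 * C * (N / Λ ^ U) := by
          rw [pow_add]
          field_simp
  calc _ ≤ 4 * C * (N / Λ ^ U) + 4 * (N / Λ ^ U) := add_le_add h5 h3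
    _ = _ := by ring

/-- the exceptional residues -/
noncomputable def Ex2 (N : ℕ) (V : ℝ) (d : ℕ) : Finset ℕ :=
  if d ≤ N then (range d).filter
    (fun a : ℕ => (N : ℝ) / (d * V) < ‖Al N d (cut2 V N) (a : ZMod d)‖) else ∅

lemma Ex2_lt (N : ℕ) (V : ℝ) (d r : ℕ) (h : r ∈ Ex2 N V d) : r < d := by
  unfold Ex2 at h
  split_ifs at h
  · rw [mem_filter, mem_range] at h
    exact h.1
  · simp at h

lemma Ex2_empty (N : ℕ) (V : ℝ) (hV : 0 < V) (d : ℕ) (h : (d : ℝ) * V ≤ Real.sqrt N) :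
    Ex2 N V d = ∅ := by
  unfold Ex2
  split_ifs
  · rw [Finset.eq_empty_iff_forall_notMem]
    intro a ha
    rw [mem_filter, mem_range] at ha
    have hd : 1 ≤ d := by omega
    have h1 : d ≤ cut2 V N := by
      unfold cut2
      refine le_trans ?_ (le_max_right _ _)
      apply Nat.le_floor
      rw [le_div_iff₀ hV]
      exact h
    rw [Al_zero N d _ hd h1, norm_zero] at ha
    have h2 : 0 ≤ (N : ℝ) / (d * V) := by positivity
    linarith
  · rfl

/-- the number of the exceptional residues -/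
theorem Ex2_card (N : ℕ) (hN : 3 ≤ N) (V : ℝ) (hV : Real.log N ≤ V) (Q : ℕ) :
    ∑ d ∈ Icc 1 Q, ((Ex2 N V d).card : ℝ) ≤ 1552 * V ^ 7 * ((Q : ℝ) ^ 3 / N) := by
  have hl1 := log_ge_one hN
  have hV1 : 1 ≤ V := hl1.trans hV
  have hV0 : 0 < V := by linarith
  have hN1 : (1:ℝ) ≤ N := by
    have : 1 ≤ N := by omega
    exact_mod_cast this
  have hN0 : (0:ℝ) < N := by linarith
  have main : ∀ Q : ℕ, 1 ≤ Q → Q ≤ N →
      ∑ d ∈ Icc 1 Q, ((Ex2 N V d).card : ℝ) ≤ 1552 * V ^ 7 * ((Q : ℝ) ^ 3 / N) := by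
    intro Q hQ hQN
    have hQ1 : (1:ℝ) ≤ Q := by exact_mod_cast hQ
    have hQ0 : (0:ℝ) < Q := by linarith
    set T : ℝ := (N : ℝ) / (Q * V) with hT
    have hT0 : 0 < T := by positivity
    have h1 : (∑ d ∈ Icc 1 Q, ((Ex2 N V d).card : ℝ)) * T ^ 2 ≤ 1552 * Q * N * V ^ 5 := by
      refine le_trans ?_ (high_sum2 N hN V hV Q hQ hQN)
      rw [sum_mul]
      apply sum_le_sum
      intro d hd
      rw [mem_Icc] at hd
      have hd0 : (0:ℝ) < d := by
        have : 0 < d := by omega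
        exact_mod_cast this
      have hdQ : (d:ℝ) ≤ Q := by exact_mod_cast hd.2
      have hsub : Ex2 N V d ⊆ range d := fun r hr => mem_range.2 (Ex2_lt N V d r hr)
      calc ((Ex2 N V d).card : ℝ) * T ^ 2 = ∑ _a ∈ Ex2 N V d, T ^ 2 := by
            rw [sum_const, nsmul_eq_mul]
        _ ≤ ∑ a ∈ Ex2 N V d, ‖Al N d (cut2 V N) (a : ZMod d)‖ ^ 2 := by
            apply sum_le_sum
            intro a ha
            apply pow_le_pow_left₀ hT0.le
            unfold Ex2 at ha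
            rw [if_pos (hd.2.trans hQN), mem_filter] at ha
            refine le_trans ?_ ha.2.le
            rw [hT]
            gcongr
        _ ≤ _ := sum_le_sum_of_subset_of_nonneg hsub fun _ _ _ => by positivity
    have h2 : 1552 * Q * N * V ^ 5 = (1552 * V ^ 7 * ((Q : ℝ) ^ 3 / N)) * T ^ 2 := by
      rw [hT, div_pow]
      field_simp
    rw [h2] at h1
    exact le_of_mul_le_mul_right h1 (by positivity)
  rcases Nat.eq_zero_or_pos Q with hQ | hQ
  · subst hQ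
    simp
  rcases Nat.lt_or_ge N Q with hQN | hQN
  · have h1 : ∑ d ∈ Icc 1 Q, ((Ex2 N V d).card : ℝ) = ∑ d ∈ Icc 1 N, ((Ex2 N V d).card : ℝ) := by
      symm
      apply sum_subset
      · exact Icc_subset_Icc_right hQN.le
      · intro d hd hd2
        rw [mem_Icc] at hd hd2
        unfold Ex2
        rw [if_neg (by omega)]
        simp
    rw [h1]
    refine (main N (by omega) le_rfl).trans ?_
    have h2 : (N:ℝ) ≤ Q := by exact_mod_cast hQN.le
    gcongr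
  · exact main Q hQ hQN

/-- the error at the other residues -/
lemma E_le_of_not_mem2 (V : ℝ) (N d a : ℕ) (hd : 1 ≤ d) (hdN : d ≤ N) (ha : a.Coprime d)
    (h : a % d ∉ Ex2 N V d) : E N d a ≤ low2 V N d + (N : ℝ) / (d * V) := by
  refine (E_le2 V N d a hd ha).trans ?_
  apply add_le_add le_rfl
  by_contra hcon
  push Not at hcon
  apply h
  unfold Ex2
  rw [if_pos hdN, mem_filter, mem_range]
  refine ⟨Nat.mod_lt _ (by omega), ?_⟩
  rw [ZMod.natCast_mod]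
  exact hcon

lemma low_total2' (U : ℕ) : ∃ C : ℝ, 0 ≤ C ∧ ∀ N : ℕ, 3 ≤ N → ∀ V : ℝ,
    Real.log N ^ (U + 4) ≤ V → ∀ Q : ℕ, (Q : ℝ) * Real.log N ^ (U + 1) ≤ N →
    ∀ f : ℕ → ℝ, (∀ d ∈ Icc 1 Q, f d ≤ low2 V N d + (N : ℝ) / (d * V)) →
      (∀ d ∈ Icc 1 Q, f d ≤ N) → ∑ d ∈ Icc 1 Q, f d ≤ C * (N / Real.log N ^ U) := by
  obtain ⟨C1, hC10, x1, hx1, hC1⟩ := low_total2 U
  refine ⟨C1 + 2 + x1 * (1 + Real.log x1) ^ U, ?_, fun N hN V hV Q hQ f hf1 hf2 => ?_⟩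
  · have := Real.log_natCast_nonneg x1
    positivity
  have hl1 := log_ge_one hN
  have hN1 : (1:ℝ) ≤ N := by
    have : 1 ≤ N := by omega
    exact_mod_cast this
  have hN0 : (0:ℝ) < N := by linarith
  have hl : 0 < Real.log N := by linarith
  have hu : 0 < (N:ℝ) / Real.log N ^ U := by positivity
  have hx10 : 0 ≤ Real.log x1 := Real.log_natCast_nonneg x1
  have hΛU : 1 ≤ Real.log N ^ (U + 1) := one_le_pow₀ hl1
  have hQ0 : (0:ℝ) ≤ Q := Nat.cast_nonneg Q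
  have hQN : (Q:ℝ) ≤ N := by nlinarith
  have hQN' : Q ≤ N := by exact_mod_cast hQN
  have hV0 : 0 < V := lt_of_lt_of_le (by positivity) hV
  rcases Nat.lt_or_ge N x1 with h | h
  · have h1 : ∑ d ∈ Icc 1 Q, f d ≤ N * N := by
      refine (sum_le_sum hf2).trans ?_
      rw [sum_const, Nat.card_Icc, nsmul_eq_mul, Nat.add_sub_cancel]
      gcongr
    have hNx : (N:ℝ) ≤ x1 := by exact_mod_cast h.le
    have h2 : Real.log N ≤ 1 + Real.log x1 := by
      have := Real.log_le_log hN0 hNx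
      linarith
    have h3 : (N:ℝ) * N ≤ x1 * (1 + Real.log x1) ^ U * (N / Real.log N ^ U) := by
      rw [mul_div_assoc', le_div_iff₀ (by positivity)]
      calc (N:ℝ) * N * Real.log N ^ U ≤ x1 * N * (1 + Real.log x1) ^ U := by gcongr
        _ = _ := by ring
    have h4 : 0 ≤ (C1 + 2) * ((N:ℝ) / Real.log N ^ U) := by positivity
    calc ∑ d ∈ Icc 1 Q, f d ≤ N * N := h1
      _ ≤ (C1 + 2) * (N / Real.log N ^ U) +
          x1 * (1 + Real.log x1) ^ U * (N / Real.log N ^ U) := by linarith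
      _ = _ := by ring
  · have h1 := hC1 N h V hV Q hQ
    have h2 : ∑ d ∈ Icc 1 Q, (N : ℝ) / (d * V) ≤ 2 * (N / Real.log N ^ U) := by
      have h3 : ∑ d ∈ Icc 1 Q, (N : ℝ) / (d * V) = (N : ℝ) / V * ∑ d ∈ Icc 1 Q, ((d:ℝ))⁻¹ := by
        rw [mul_sum]
        apply sum_congr rfl
        intro d _
        rw [mul_comm (d:ℝ) V, ← div_div, div_eq_mul_inv (N / V : ℝ)]
      have h4 : ∑ d ∈ Icc 1 Q, ((d:ℝ))⁻¹ ≤ 1 + Real.log N := by
        have h5 : ∑ d ∈ Icc 1 Q, ((d:ℝ))⁻¹ ≤ ∑ d ∈ Icc 1 N, ((d:ℝ))⁻¹ :=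
          sum_le_sum_of_subset_of_nonneg (Icc_subset_Icc_right hQN') fun _ _ _ => by positivity
        have h6 := harmonic_le_one_add_log N
        have h7 : ((harmonic N : ℚ) : ℝ) = ∑ d ∈ Icc 1 N, ((d:ℝ))⁻¹ := by
          rw [harmonic_eq_sum_Icc]
          push_cast
          rfl
        rw [h7] at h6
        exact h5.trans h6
      have h5 : Real.log N ^ (U + 1) ≤ V :=
        le_trans (pow_le_pow_right₀ hl1 (by omega)) hV
      rw [h3, mul_div_assoc', le_div_iff₀ (by positivity)]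
      calc (N : ℝ) / V * (∑ d ∈ Icc 1 Q, ((d:ℝ))⁻¹) * Real.log N ^ U
          ≤ (N : ℝ) / V * (2 * Real.log N) * Real.log N ^ U := by
            gcongr
            linarith
        _ = (N : ℝ) / V * (2 * Real.log N ^ (U + 1)) := by ring
        _ ≤ (N : ℝ) / V * (2 * V) := by gcongr
        _ = 2 * N := by field_simp
    have h3 : ∑ d ∈ Icc 1 Q, f d ≤ ∑ d ∈ Icc 1 Q, low2 V N d +
        ∑ d ∈ Icc 1 Q, (N : ℝ) / (d * V) := by
      rw [← sum_add_distrib]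
      exact sum_le_sum hf1
    have h4 : 0 ≤ x1 * (1 + Real.log x1) ^ U * ((N:ℝ) / Real.log N ^ U) := by positivity
    calc ∑ d ∈ Icc 1 Q, f d ≤ C1 * (N / Real.log N ^ U) + 2 * (N / Real.log N ^ U) := by linarith
      _ ≤ C1 * (N / Real.log N ^ U) + 2 * (N / Real.log N ^ U) +
          x1 * (1 + Real.log x1) ^ U * (N / Real.log N ^ U) := by linarith
      _ = _ := by ring

end Pool.Agent.TH926.EH
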