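import Pool.Agent.TH926.EH.Lg

/-!
Families of residue systems, sets of residues and the number of the bad residues: versions with
powers of the logarithm.
-/

set_option autoImplicit false

open Finset Filter

namespace Pool.Agent.TH926.EH

open Pool.Agent.Helper112

/-- **arbitrary families of residue systems** -/
theorem fam2 (U : ℕ) : ∃ C : ℝ, 0 < C ∧
    ∀ N : ℕ, 3 ≤ N → ∀ Q : ℕ, (Q : ℝ) * Real.log N ^ (U + 1) ≤ N →
    ∀ (ι : Type) (I : Finset ι) (c : ι → ℕ → ℕ),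
    ∑ i ∈ I, ∑ q ∈ (Icc 1 Q).filter (fun q => (c i q).Coprime q), E N q (c i q) ≤
      C * (I.card * (N / Real.log N ^ U) +
        Real.sqrt (en I c Q * (Q * N)) * Real.log N ^ (3 * (U + 4))) := by
  obtain ⟨C1, hC10, hC1⟩ := low_total2' U
  refine ⟨C1 + 40, by positivity, fun N hN Q hQ ι I c => ?_⟩
  have hl1 := log_ge_one hN
  have hN1 : (1:ℝ) ≤ N := by
    have : 1 ≤ N := by omega
    exact_mod_cast this
  have hN0 : (0:ℝ) < N := by linarith
  have hl : 0 < Real.log N := by linarith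
  set Λ := Real.log N with hΛ
  set u : ℝ := (N:ℝ) / Λ ^ U with hu
  have hu0 : 0 < u := by positivity
  set n : ℝ := (I.card : ℝ) with hn
  have hn0 : 0 ≤ n := Nat.cast_nonneg _
  rcases Nat.eq_zero_or_pos Q with hQ0 | hQ1
  · subst hQ0
    have : ∑ i ∈ I, ∑ q ∈ (Icc 1 0).filter (fun q => (c i q).Coprime q), E N q (c i q) = 0 := by
      apply sum_eq_zero
      intro a _
      simp
    rw [this]
    positivity
  have hΛU : 1 ≤ Λ ^ (U + 1) := one_le_pow₀ hl1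
  have hQ0 : (0:ℝ) ≤ Q := Nat.cast_nonneg Q
  have hQN : (Q:ℝ) ≤ N := by nlinarith
  have hQN' : Q ≤ N := by exact_mod_cast hQN
  set V : ℝ := Λ ^ (U + 4) with hV
  have hV0 : 0 < V := by positivity
  have hVΛ : Λ ≤ V := by
    calc Λ = Λ ^ 1 := (pow_one Λ).symm
      _ ≤ Λ ^ (U + 4) := pow_le_pow_right₀ hl1 (by omega)
  set R := cut2 V N with hR
  set g : ℕ → ℕ → ℝ := fun q r => ‖Al N q R (r : ZMod q)‖ with hg
  have s1 : ∑ i ∈ I, ∑ q ∈ (Icc 1 Q).filter (fun q => (c i q).Coprime q), E N q (c i q) ≤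
      ∑ i ∈ I, ∑ q ∈ Icc 1 Q, (min (low2 V N q) N + g q (c i q % q)) := by
    apply sum_le_sum
    intro i _
    have hm : ∀ q, 0 ≤ min (low2 V N q) N + g q (c i q % q) := fun q =>
      add_nonneg (le_min (low2_nonneg _ _ _) hN0.le) (norm_nonneg _)
    calc ∑ q ∈ (Icc 1 Q).filter (fun q => (c i q).Coprime q), E N q (c i q) ≤
        ∑ q ∈ (Icc 1 Q).filter (fun q => (c i q).Coprime q),
          (min (low2 V N q) N + g q (c i q % q)) := by
          apply sum_le_sum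
          intro q hq
          rw [mem_filter, mem_Icc] at hq
          have h1 := E_le2 V N q (c i q) hq.1.1 hq.2
          have h2 := E_triv N q (c i q) hq.1.1
          have h3 : g q (c i q % q) = ‖Al N q R (c i q : ZMod q)‖ := by
            simp only [hg]
            rw [ZMod.natCast_mod]
          have h4 : 0 ≤ ‖Al N q R (c i q : ZMod q)‖ := norm_nonneg _
          rw [h3]
          rcases min_choice (low2 V N q) (N:ℝ) with h | h
          · rw [h]
            exact h1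
          · rw [h]
            linarith
      _ ≤ _ := sum_le_sum_of_subset_of_nonneg (filter_subset _ _) fun q _ _ => hm q
  have s2 : ∑ i ∈ I, ∑ q ∈ Icc 1 Q, (min (low2 V N q) N + g q (c i q % q)) =
      n * ∑ q ∈ Icc 1 Q, min (low2 V N q) N + ∑ i ∈ I, ∑ q ∈ Icc 1 Q, g q (c i q % q) := by
    rw [← nsmul_eq_mul, ← sum_const, ← sum_add_distrib]
    apply sum_congr rfl
    intro a _
    rw [sum_add_distrib]
  have s3 : ∑ q ∈ Icc 1 Q, min (low2 V N q) (N:ℝ) ≤ C1 * u := by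
    apply hC1 N hN V le_rfl Q hQ (fun q => min (low2 V N q) (N:ℝ))
    · intro d _
      have h1 : 0 ≤ (N : ℝ) / (d * V) := by positivity
      exact (min_le_left _ _).trans (by linarith)
    · intro d _
      exact min_le_right _ _
  have s5 := high_sum2 N hN V hVΛ Q hQ1 hQN'
  have s6 := cs_partF I c Q g
  set W : ℝ := Λ ^ (3 * (U + 4)) with hW
  have hW0 : 0 < W := by positivity
  have hVW : V ^ 5 ≤ W ^ 2 := by
    rw [hV, hW, ← pow_mul, ← pow_mul]
    exact pow_le_pow_right₀ hl1 (by omega)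
  have s8 : ∑ i ∈ I, ∑ q ∈ Icc 1 Q, g q (c i q % q) ≤
      40 * (Real.sqrt (en I c Q * (Q * N)) * W) := by
    refine s6.trans ?_
    rw [← Real.sqrt_mul (Nat.cast_nonneg _)]
    have h1 : (en I c Q : ℝ) * ∑ q ∈ Icc 1 Q, ∑ r ∈ range q, g q r ^ 2 ≤
        (en I c Q * (Q * N)) * (40 * W) ^ 2 := by
      calc (en I c Q : ℝ) * ∑ q ∈ Icc 1 Q, ∑ r ∈ range q, g q r ^ 2 ≤
          en I c Q * (1552 * Q * N * V ^ 5) := by gcongr
        _ ≤ en I c Q * (1552 * Q * N * W ^ 2) := by gcongr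
        _ ≤ en I c Q * (1600 * Q * N * W ^ 2) := by gcongr; norm_num
        _ = _ := by ring
    refine (Real.sqrt_le_sqrt h1).trans ?_
    rw [Real.sqrt_mul (by positivity), Real.sqrt_sq (by positivity)]
    apply le_of_eq
    ring
  have s11 : n * ∑ q ∈ Icc 1 Q, min (low2 V N q) (N:ℝ) ≤ C1 * (n * u) := by
    calc n * ∑ q ∈ Icc 1 Q, min (low2 V N q) (N:ℝ) ≤ n * (C1 * u) := by gcongr
      _ = _ := by ring
  have p1 : 0 ≤ n * u := by positivity
  have p2 : 0 ≤ C1 * (Real.sqrt (en I c Q * (Q * N)) * W) := by positivity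
  calc _ ≤ _ := s1
    _ = _ := s2
    _ ≤ C1 * (n * u) + 40 * (Real.sqrt (en I c Q * (Q * N)) * W) := by linarith
    _ ≤ C1 * (n * u) + 40 * (Real.sqrt (en I c Q * (Q * N)) * W) +
        40 * (n * u) + C1 * (Real.sqrt (en I c Q * (Q * N)) * W) := by linarith
    _ = _ := by ring

lemma muF_const (A : Finset ℕ) (q r : ℕ) : muF A (fun a _ => a) q r = mu A q r := rfl

/-- arbitrary sets of residues -/
theorem sets2 (ε B : ℝ) (hε : 0 < ε) (hε1 : ε < 1) (hB : 0 ≤ B) (U : ℕ) : ∃ C : ℝ, 0 < C ∧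
    ∀ N : ℕ, 3 ≤ N → ∀ Q : ℕ, (Q : ℝ) ≤ (N : ℝ) ^ (1 - ε) →
    ∀ A : Finset ℕ, (∀ a ∈ A, (a : ℝ) ≤ (N : ℝ) ^ B) →
    ∑ a ∈ A, ∑ q ∈ (Icc 1 Q).filter (fun q => a.Coprime q), E N q a ≤
      C * (A.card * (N / Real.log N ^ U) +
        Real.sqrt A.card * (Q * Real.sqrt N * Real.log N ^ (3 * (U + 4)))) := by
  obtain ⟨C1, hC10, hC1⟩ := fam2 U
  obtain ⟨C3, hC30, hC3⟩ := count_part (ε / (4 * (B + 1))) (by positivity)
  obtain ⟨C4, hC40, hC4⟩ := log_pow_le (3 * (U + 4) + U) (3 * ε / 8) (by positivity)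
  have ev : ∀ᶠ X : ℝ in atTop, 1 * Real.log X ^ (U + 1) ≤ X ^ ε :=
    Pool.Agent.H398R2.BV.ev_log 1 (U + 1) ε hε
  have evN := tendsto_natCast_atTop_atTop (R := ℝ) |>.eventually ev
  obtain ⟨x2, hx2⟩ := eventually_atTop.1 evN
  refine ⟨C1 * (1 + Real.sqrt C3 * C4) + x2 * (1 + Real.log x2) ^ U, ?_,
    fun N hN Q hQ A hA => ?_⟩
  · have := Real.log_natCast_nonneg x2
    positivity
  have hl1 := log_ge_one hN
  have hx20 : 0 ≤ Real.log x2 := Real.log_natCast_nonneg x2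
  have hN1 : (1:ℝ) ≤ N := by
    have : 1 ≤ N := by omega
    exact_mod_cast this
  have hN0 : (0:ℝ) < N := by linarith
  have hl : 0 < Real.log N := by linarith
  set n : ℝ := (A.card : ℝ) with hn
  have hn0 : 0 ≤ n := Nat.cast_nonneg _
  have hQN : (Q:ℝ) ≤ N := by
    refine hQ.trans ?_
    calc (N:ℝ) ^ (1 - ε) ≤ (N:ℝ) ^ (1:ℝ) := by
          apply Real.rpow_le_rpow_of_exponent_le hN1
          linarith
      _ = N := Real.rpow_one _
  set P : ℝ := Real.sqrt n * (Q * Real.sqrt N * Real.log N ^ (3 * (U + 4))) with hP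
  have hP0 : 0 ≤ P := by positivity
  set u : ℝ := (N:ℝ) / Real.log N ^ U with hu
  have hu0 : 0 < u := by positivity
  rcases Nat.lt_or_ge N x2 with h | h
  · have h1 : ∑ a ∈ A, ∑ q ∈ (Icc 1 Q).filter (fun q => a.Coprime q), E N q a ≤ n * (N * N) := by
      rw [← nsmul_eq_mul, ← sum_const]
      apply sum_le_sum
      intro a _
      calc ∑ q ∈ (Icc 1 Q).filter (fun q => a.Coprime q), E N q a ≤ ∑ q ∈ Icc 1 Q, (N:ℝ) := by
            refine (sum_le_sum_of_subset_of_nonneg (filter_subset _ _)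
              fun q _ _ => E_nonneg N q a).trans ?_
            apply sum_le_sum
            intro q hq
            rw [mem_Icc] at hq
            exact E_triv N q a hq.1
        _ = Q * N := by rw [sum_const, Nat.card_Icc, nsmul_eq_mul, Nat.add_sub_cancel]
        _ ≤ N * N := by gcongr
    have hNx : (N:ℝ) ≤ x2 := by exact_mod_cast h.le
    have h2 : Real.log N ≤ 1 + Real.log x2 := by
      have := Real.log_le_log hN0 hNx
      linarith
    have h3 : (N:ℝ) * N ≤ x2 * (1 + Real.log x2) ^ U * u := by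
      rw [hu, mul_div_assoc', le_div_iff₀ (by positivity)]
      calc (N:ℝ) * N * Real.log N ^ U ≤ x2 * N * (1 + Real.log x2) ^ U := by gcongr
        _ = _ := by ring
    have h4 : n * (N * N) ≤ x2 * (1 + Real.log x2) ^ U * (n * u) := by
      calc n * (N * N) ≤ n * (x2 * (1 + Real.log x2) ^ U * u) := by gcongr
        _ = _ := by ring
    have h5 : 0 ≤ C1 * (1 + Real.sqrt C3 * C4) * (n * u) := by positivity
    have h6 : 0 ≤ (C1 * (1 + Real.sqrt C3 * C4) + x2 * (1 + Real.log x2) ^ U) * P := by positivity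
    calc _ ≤ n * (N * N) := h1
      _ ≤ C1 * (1 + Real.sqrt C3 * C4) * (n * u) + x2 * (1 + Real.log x2) ^ U * (n * u) +
          (C1 * (1 + Real.sqrt C3 * C4) + x2 * (1 + Real.log x2) ^ U) * P := by linarith
      _ = _ := by ring
  · have h0 := hx2 N h
    rw [one_mul] at h0
    have hQ2 : (Q : ℝ) * Real.log N ^ (U + 1) ≤ N := by
      calc (Q : ℝ) * Real.log N ^ (U + 1) ≤ (N : ℝ) ^ (1 - ε) * (N : ℝ) ^ ε := by gcongr
        _ = N := by
            rw [← Real.rpow_add hN0]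
            have : (1:ℝ) - ε + ε = 1 := by ring
            rw [this, Real.rpow_one]
    have h1 := hC1 N hN Q hQ2 ℕ A (fun a _ => a)
    have hB1 : (1:ℝ) ≤ (N:ℝ) ^ B := Real.one_le_rpow hN1 hB
    have h2 := hC3 ((N:ℝ) ^ B) hB1 Q A hA
    have hBη : ((N:ℝ) ^ B) ^ (ε / (4 * (B + 1))) ≤ (N:ℝ) ^ (ε / 4) := by
      rw [← Real.rpow_mul hN0.le]
      apply Real.rpow_le_rpow_of_exponent_le hN1
      rw [mul_div_assoc', div_le_div_iff₀ (by positivity) (by norm_num)]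
      nlinarith
    have h3 : (en A (fun a _ => a) Q : ℝ) ≤ n * Q + C3 * n ^ 2 * (N:ℝ) ^ (ε / 4) := by
      rw [en_eq]
      simp only [muF_const]
      refine h2.trans ?_
      gcongr
    set W : ℝ := Real.log N ^ (3 * (U + 4)) with hW
    have hW0 : 0 < W := by positivity
    have h4 : Real.sqrt (en A (fun a _ => a) Q * (Q * N)) * W ≤
        P + Real.sqrt C3 * C4 * (n * u) := by
      have e1 : (en A (fun a _ => a) Q : ℝ) * (Q * N) ≤
          n * ((Q:ℝ) ^ 2 * N) + C3 * (n ^ 2 * (Q * N * (N:ℝ) ^ (ε / 4))) := by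
        calc (en A (fun a _ => a) Q : ℝ) * (Q * N) ≤
            (n * Q + C3 * n ^ 2 * (N:ℝ) ^ (ε / 4)) * (Q * N) := by gcongr
          _ = _ := by ring
      have e2 : Real.sqrt (n * ((Q:ℝ) ^ 2 * N)) = Real.sqrt n * (Q * Real.sqrt N) := by
        rw [Real.sqrt_mul hn0, Real.sqrt_mul (by positivity : 0 ≤ (Q:ℝ) ^ 2),
          Real.sqrt_sq (Nat.cast_nonneg Q)]
      have e3 : Real.sqrt (C3 * (n ^ 2 * (Q * N * (N:ℝ) ^ (ε / 4)))) ≤
          Real.sqrt C3 * (n * (N:ℝ) ^ (1 - 3 * ε / 8)) := by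
        rw [Real.sqrt_mul hC30.le, Real.sqrt_mul (by positivity : 0 ≤ n ^ 2), Real.sqrt_sq hn0]
        have e4 : Q * N * (N:ℝ) ^ (ε / 4) ≤ ((N:ℝ) ^ (1 - 3 * ε / 8)) ^ 2 := by
          calc Q * N * (N:ℝ) ^ (ε / 4) ≤ (N:ℝ) ^ (1 - ε) * (N:ℝ) ^ (1:ℝ) * (N:ℝ) ^ (ε / 4) := by
                rw [Real.rpow_one]
                gcongr
            _ = ((N:ℝ) ^ (1 - 3 * ε / 8)) ^ 2 := by
                rw [← Real.rpow_add hN0, ← Real.rpow_add hN0, ← Real.rpow_natCast,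
                  ← Real.rpow_mul hN0.le]
                congr 1
                push_cast
                ring
        have e5 : Real.sqrt (Q * N * (N:ℝ) ^ (ε / 4)) ≤ (N:ℝ) ^ (1 - 3 * ε / 8) := by
          refine (Real.sqrt_le_sqrt e4).trans ?_
          rw [Real.sqrt_sq (by positivity)]
        gcongr
      have e6 : (N:ℝ) ^ (1 - 3 * ε / 8) * W ≤ C4 * u := by
        rw [hu, mul_div_assoc', le_div_iff₀ (by positivity)]
        have h1 := hC4 N (by omega)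
        calc (N:ℝ) ^ (1 - 3 * ε / 8) * W * Real.log N ^ U
            = (N:ℝ) ^ (1 - 3 * ε / 8) * Real.log N ^ (3 * (U + 4) + U) := by
              rw [hW, pow_add]; ring
          _ ≤ (N:ℝ) ^ (1 - 3 * ε / 8) * (1 + Real.log N) ^ (3 * (U + 4) + U) := by
              gcongr
              linarith
          _ ≤ (N:ℝ) ^ (1 - 3 * ε / 8) * (C4 * (N:ℝ) ^ (3 * ε / 8)) := by gcongr
          _ = C4 * ((N:ℝ) ^ (1 - 3 * ε / 8) * (N:ℝ) ^ (3 * ε / 8)) := by ring
          _ = C4 * N := by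
              rw [← Real.rpow_add hN0]
              have : (1:ℝ) - 3 * ε / 8 + 3 * ε / 8 = 1 := by ring
              rw [this, Real.rpow_one]
      calc Real.sqrt (en A (fun a _ => a) Q * (Q * N)) * W
          ≤ (Real.sqrt (n * ((Q:ℝ) ^ 2 * N)) +
            Real.sqrt (C3 * (n ^ 2 * (Q * N * (N:ℝ) ^ (ε / 4))))) * W := by
            apply mul_le_mul_of_nonneg_right _ hW0.le
            refine (Real.sqrt_le_sqrt e1).trans ?_
            exact sqrt_add_le' (by positivity) (by positivity)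
        _ ≤ (Real.sqrt n * (Q * Real.sqrt N) + Real.sqrt C3 * (n * (N:ℝ) ^ (1 - 3 * ε / 8))) * W := by
            rw [e2]
            gcongr
        _ = P + Real.sqrt C3 * n * ((N:ℝ) ^ (1 - 3 * ε / 8) * W) := by
            rw [hP]; ring
        _ ≤ P + Real.sqrt C3 * n * (C4 * u) := by gcongr
        _ = _ := by ring
    have h5 : 0 ≤ C1 * (Real.sqrt C3 * C4) * P := by positivity
    have h6 : 0 ≤ x2 * (1 + Real.log x2) ^ U * (n * u + P) := by positivity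
    calc _ ≤ C1 * (n * u + Real.sqrt (en A (fun a _ => a) Q * (Q * N)) * W) := h1
      _ ≤ C1 * (n * u + (P + Real.sqrt C3 * C4 * (n * u))) := by gcongr
      _ ≤ C1 * (n * u + (P + Real.sqrt C3 * C4 * (n * u))) + C1 * (Real.sqrt C3 * C4) * P +
          x2 * (1 + Real.log x2) ^ U * (n * u + P) := by linarith
      _ = _ := by ring

/-- **few bad residues** -/
theorem few_bad2 (ε B : ℝ) (hε : 0 < ε) (hε1 : ε < 1) (hB : 0 ≤ B) (U : ℕ) : ∃ C : ℝ, 0 < C ∧
    ∀ N : ℕ, 3 ≤ N → ∀ Q : ℕ, (Q : ℝ) ≤ (N : ℝ) ^ (1 - ε) →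
    ∀ A : Finset ℕ, (∀ a ∈ A, 1 ≤ a ∧ (a : ℝ) ≤ (N : ℝ) ^ B ∧
      N / Real.log N ^ U < ∑ q ∈ (Icc 1 Q).filter (fun q => a.Coprime q), E N q a) →
    (A.card : ℝ) ≤ C * Real.log N ^ (2 * U + 6 * (U + 5)) * ((Q : ℝ) ^ 2 / N) := by
  obtain ⟨C1, hC10, hC1⟩ := sets2 ε B hε hε1 hB (U + 1)
  set N0 : ℕ := ⌈Real.exp (2 * C1)⌉₊ + 3 with hN0d
  have hN03 : (1:ℝ) ≤ N0 := by
    have : 1 ≤ N0 := by omega
    exact_mod_cast this
  refine ⟨(N0:ℝ) ^ (B + 1) + 4 * C1 ^ 2, by positivity, fun N hN Q hQ A hA => ?_⟩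
  have hl1 := log_ge_one hN
  have hN1 : (1:ℝ) ≤ N := by
    have : 1 ≤ N := by omega
    exact_mod_cast this
  have hN0 : (0:ℝ) < N := by linarith
  have hl : 0 < Real.log N := by linarith
  rcases A.eq_empty_or_nonempty with hAe | ⟨a0, ha0⟩
  · rw [hAe]
    simp only [card_empty, Nat.cast_zero]
    positivity
  have hQ1 : 1 ≤ Q := by
    by_contra hcon
    have hQ0 : Q = 0 := by omega
    have h1 := (hA a0 ha0).2.2
    rw [hQ0] at h1
    simp only [show Icc 1 0 = (∅ : Finset ℕ) from rfl, filter_empty, sum_empty] at h1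
    have h2 : 0 < (N:ℝ) / Real.log N ^ U := by positivity
    linarith
  have hQ1' : (1:ℝ) ≤ Q := by exact_mod_cast hQ1
  set M : ℝ := Real.log N ^ (2 * U + 6 * (U + 5)) with hM
  have hM1 : 1 ≤ M := one_le_pow₀ hl1
  have hP : 0 ≤ M * ((Q : ℝ) ^ 2 / N) := by positivity
  rcases Nat.lt_or_ge N N0 with h | h
  · have hNN0 : (N:ℝ) ≤ N0 := by exact_mod_cast h.le
    have h1 : (A.card : ℝ) ≤ (N:ℝ) ^ B := by
      have h2 : A ⊆ Icc 1 ⌊(N:ℝ) ^ B⌋₊ := by
        intro a ha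
        rw [mem_Icc]
        exact ⟨(hA a ha).1, Nat.le_floor (hA a ha).2.1⟩
      have h3 := card_le_card h2
      rw [Nat.card_Icc, Nat.add_sub_cancel] at h3
      calc (A.card : ℝ) ≤ (⌊(N:ℝ) ^ B⌋₊ : ℝ) := by exact_mod_cast h3
        _ ≤ (N:ℝ) ^ B := Nat.floor_le (by positivity)
    have h2 : (1:ℝ) ≤ (N0:ℝ) * (M * ((Q : ℝ) ^ 2 / N)) := by
      have h4 : (1:ℝ) ≤ (Q:ℝ) ^ 2 := one_le_pow₀ hQ1'
      calc (1:ℝ) = N * (1 * (1 / N)) := by field_simp
        _ ≤ (N0:ℝ) * (M * ((Q : ℝ) ^ 2 / N)) := by gcongr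
    have h3 : 0 ≤ 4 * C1 ^ 2 * (M * ((Q : ℝ) ^ 2 / N)) := by positivity
    have h5 : (N:ℝ) ^ B ≤ (N0:ℝ) ^ B := Real.rpow_le_rpow hN0.le hNN0 hB
    have h6 : (N0:ℝ) ^ (B + 1) = (N0:ℝ) ^ B * N0 := by
      rw [Real.rpow_add (by linarith), Real.rpow_one]
    calc (A.card : ℝ) ≤ (N0:ℝ) ^ B * 1 := by linarith
      _ ≤ (N0:ℝ) ^ B * ((N0:ℝ) * (M * ((Q : ℝ) ^ 2 / N))) := by gcongr
      _ = (N0:ℝ) ^ (B + 1) * (M * ((Q : ℝ) ^ 2 / N)) := by rw [h6]; ring
      _ ≤ (N0:ℝ) ^ (B + 1) * (M * ((Q : ℝ) ^ 2 / N)) + 4 * C1 ^ 2 * (M * ((Q : ℝ) ^ 2 / N)) := by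
          linarith
      _ = _ := by ring
  · set Λ := Real.log N with hΛ
    have hΛ1 : 2 * C1 ≤ Λ := by
      rw [hΛ, Real.le_log_iff_exp_le hN0]
      calc Real.exp (2 * C1) ≤ (⌈Real.exp (2 * C1)⌉₊ : ℝ) := Nat.le_ceil _
        _ ≤ (N0:ℝ) := by
            have : ⌈Real.exp (2 * C1)⌉₊ ≤ N0 := by omega
            exact_mod_cast this
        _ ≤ N := by exact_mod_cast h
    have h1 := hC1 N hN Q hQ A (fun a ha => (hA a ha).2.1)
    set n : ℝ := (A.card : ℝ) with hn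
    have hn1 : (1:ℝ) ≤ n := by
      have h0 : 1 ≤ A.card := Finset.card_pos.2 ⟨a0, ha0⟩
      rw [hn]
      exact_mod_cast h0
    have h2 : n * (N / Λ ^ U) ≤ ∑ a ∈ A, ∑ q ∈ (Icc 1 Q).filter (fun q => a.Coprime q), E N q a := by
      rw [← nsmul_eq_mul, ← sum_const]
      apply sum_le_sum
      intro a ha
      exact (hA a ha).2.2.le
    set s : ℝ := Real.sqrt n with hs
    have hs2 : s * s = n := Real.mul_self_sqrt (by linarith)
    have hs0 : 0 < s := Real.sqrt_pos.2 (by linarith)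
    set t : ℝ := (Q:ℝ) * Real.sqrt N * Λ ^ (3 * (U + 1 + 4)) with ht
    have ht0 : 0 ≤ t := by positivity
    have h3 : C1 * (n * (N / Λ ^ (U + 1))) ≤ (1 / 2) * (n * (N / Λ ^ U)) := by
      have e1 : C1 * (n * (N / Λ ^ (U + 1))) = (C1 / Λ) * (n * (N / Λ ^ U)) := by
        rw [pow_succ]
        field_simp
      rw [e1]
      apply mul_le_mul_of_nonneg_right _ (by positivity)
      rw [div_le_div_iff₀ hl (by norm_num)]
      linarith
    have h4 : n * (N / Λ ^ U) ≤ 2 * C1 * (s * t) := by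
      have : n * (N / Λ ^ U) ≤ C1 * (n * (N / Λ ^ (U + 1)) + s * t) := h2.trans h1
      linarith
    have h5 : s * N ≤ 2 * C1 * t * Λ ^ U := by
      have e1 : n * (N / Λ ^ U) = s * (s * N / Λ ^ U) := by
        rw [← hs2]; ring
      have e2 : 2 * C1 * (s * t) = s * (2 * C1 * t) := by ring
      rw [e1, e2] at h4
      have h6 := le_of_mul_le_mul_left h4 hs0
      rw [div_le_iff₀ (by positivity)] at h6
      exact h6
    have hsN : Real.sqrt (N:ℝ) ^ 2 = (N:ℝ) := Real.sq_sqrt hN0.le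
    have h6 : n * (N:ℝ) ^ 2 ≤ (4 * C1 ^ 2 * (M * ((Q : ℝ) ^ 2 / N))) * (N:ℝ) ^ 2 := by
      have e1 : n * (N:ℝ) ^ 2 = (s * N) ^ 2 := by rw [← hs2]; ring
      rw [e1]
      calc (s * N) ^ 2 ≤ (2 * C1 * t * Λ ^ U) ^ 2 := by
            apply pow_le_pow_left₀ (by positivity) h5
        _ = 4 * C1 ^ 2 * ((Q:ℝ) ^ 2 * Real.sqrt N ^ 2 * (Λ ^ (3 * (U + 1 + 4)) * Λ ^ U) ^ 2) := by
            rw [ht]
            ring
        _ = 4 * C1 ^ 2 * ((Q:ℝ) ^ 2 * N * M) := by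
            rw [hsN, hM, ← pow_add, ← pow_mul]
            congr 4
            ring
        _ = _ := by field_simp
    have h9 := le_of_mul_le_mul_right h6 (by positivity)
    have h10 : 0 ≤ (N0:ℝ) ^ (B + 1) * (M * ((Q : ℝ) ^ 2 / N)) := by positivity
    calc n ≤ 4 * C1 ^ 2 * (M * ((Q : ℝ) ^ 2 / N)) := h9
      _ ≤ (N0:ℝ) ^ (B + 1) * (M * ((Q : ℝ) ^ 2 / N)) + 4 * C1 ^ 2 * (M * ((Q : ℝ) ^ 2 / N)) := by
          linarith
      _ = _ := by ring

end Pool.Agent.TH926.EH
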