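import Pool.Agent.TH926.EH.Fin

/-!
The exceptional residues; arbitrary sets of residues; the number of bad residues.
-/

set_option autoImplicit false

open Finset Filter

namespace Pool.Agent.TH926.EH

open Pool.Agent.Helper112

/-- the exceptional residues -/
noncomputable def Ex (δ : ℝ) (N d : ℕ) : Finset ℕ :=
  if d ≤ N then (range d).filter
    (fun a : ℕ => (N : ℝ) ^ (1 - δ) / d < ‖Al N d (cut δ N) (a : ZMod d)‖) else ∅

lemma Ex_lt (δ : ℝ) (N d r : ℕ) (h : r ∈ Ex δ N d) : r < d := by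
  unfold Ex at h
  split_ifs at h
  · rw [mem_filter, mem_range] at h
    exact h.1
  · simp at h

lemma Ex_empty (δ : ℝ) (N d : ℕ) (h : (d : ℝ) ≤ (N : ℝ) ^ (1 / 2 - δ)) : Ex δ N d = ∅ := by
  unfold Ex
  split_ifs
  · rw [Finset.eq_empty_iff_forall_notMem]
    intro a ha
    rw [mem_filter, mem_range] at ha
    have hd : 1 ≤ d := by omega
    have h1 : d ≤ cut δ N := Nat.le_floor h
    rw [Al_zero N d _ hd h1, norm_zero] at ha
    have h2 : 0 ≤ (N : ℝ) ^ (1 - δ) / d := by positivity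
    linarith
  · rfl

/-- the number of the exceptional residues -/
theorem Ex_card (δ : ℝ) (hδ : 0 < δ) (hδ2 : δ < 1 / 2) : ∃ C : ℝ, 0 < C ∧
    ∀ N : ℕ, 1 ≤ N → ∀ Q : ℕ,
      ∑ d ∈ Icc 1 Q, ((Ex δ N d).card : ℝ) ≤ C * (Q : ℝ) ^ 3 * (N : ℝ) ^ (-1 + 5 * δ) := by
  obtain ⟨C, hC0, hC⟩ := high_sum δ hδ hδ2
  refine ⟨C, hC0, fun N hN => ?_⟩
  have hN1 : (1:ℝ) ≤ N := by exact_mod_cast hN
  have hN0 : (0:ℝ) < N := by linarith
  have main : ∀ Q : ℕ, 1 ≤ Q → Q ≤ N →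
      ∑ d ∈ Icc 1 Q, ((Ex δ N d).card : ℝ) ≤ C * (Q : ℝ) ^ 3 * (N : ℝ) ^ (-1 + 5 * δ) := by
    intro Q hQ hQN
    have hQ1 : (1:ℝ) ≤ Q := by exact_mod_cast hQ
    have hQ0 : (0:ℝ) < Q := by linarith
    set T : ℝ := (N : ℝ) ^ (1 - δ) / Q with hT
    have hT0 : 0 < T := by positivity
    have h1 : (∑ d ∈ Icc 1 Q, ((Ex δ N d).card : ℝ)) * T ^ 2 ≤ C * Q * (N : ℝ) ^ (1 + 3 * δ) := by
      refine le_trans ?_ (hC N hN Q hQ hQN)
      rw [sum_mul]
      apply sum_le_sum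
      intro d hd
      rw [mem_Icc] at hd
      have hd0 : (0:ℝ) < d := by
        have : 0 < d := by omega
        exact_mod_cast this
      have hdQ : (d:ℝ) ≤ Q := by exact_mod_cast hd.2
      have hsub : Ex δ N d ⊆ range d := fun r hr => mem_range.2 (Ex_lt δ N d r hr)
      calc ((Ex δ N d).card : ℝ) * T ^ 2 = ∑ _a ∈ Ex δ N d, T ^ 2 := by
            rw [sum_const, nsmul_eq_mul]
        _ ≤ ∑ a ∈ Ex δ N d, ‖Al N d (cut δ N) (a : ZMod d)‖ ^ 2 := by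
            apply sum_le_sum
            intro a ha
            apply pow_le_pow_left₀ hT0.le
            unfold Ex at ha
            rw [if_pos (hd.2.trans hQN), mem_filter] at ha
            refine le_trans ?_ ha.2.le
            rw [hT]
            gcongr
        _ ≤ _ := sum_le_sum_of_subset_of_nonneg hsub fun _ _ _ => by positivity
    have h2 : C * Q * (N : ℝ) ^ (1 + 3 * δ) =
        (C * (Q : ℝ) ^ 3 * (N : ℝ) ^ (-1 + 5 * δ)) * T ^ 2 := by
      rw [hT, div_pow]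
      have e1 : ((N : ℝ) ^ (1 - δ)) ^ 2 = (N : ℝ) ^ (2 - 2 * δ) := by
        rw [← Real.rpow_natCast, ← Real.rpow_mul hN0.le]
        congr 1
        push_cast
        ring
      have e2 : (N : ℝ) ^ (1 + 3 * δ) = (N : ℝ) ^ (-1 + 5 * δ) * (N : ℝ) ^ (2 - 2 * δ) := by
        rw [← Real.rpow_add hN0]
        congr 1
        ring
      rw [e1, e2]
      field_simp
    rw [h2] at h1
    exact le_of_mul_le_mul_right h1 (by positivity)
  intro Q
  rcases Nat.eq_zero_or_pos Q with hQ | hQ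
  · subst hQ
    simp
  rcases Nat.lt_or_ge N Q with hQN | hQN
  · have h1 : ∑ d ∈ Icc 1 Q, ((Ex δ N d).card : ℝ) = ∑ d ∈ Icc 1 N, ((Ex δ N d).card : ℝ) := by
      symm
      apply sum_subset
      · exact Icc_subset_Icc_right hQN.le
      · intro d hd hd2
        rw [mem_Icc] at hd hd2
        unfold Ex
        rw [if_neg (by omega)]
        simp
    rw [h1]
    refine (main N hN le_rfl).trans ?_
    have h2 : (N:ℝ) ≤ Q := by exact_mod_cast hQN.le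
    gcongr
  · exact main Q hQ hQN

/-- the error at the other residues -/
lemma E_le_of_not_mem (δ : ℝ) (N d a : ℕ) (hd : 1 ≤ d) (hdN : d ≤ N) (ha : a.Coprime d)
    (h : a % d ∉ Ex δ N d) : E N d a ≤ low δ N d + (N : ℝ) ^ (1 - δ) / d := by
  refine (E_le δ N d a hd ha).trans ?_
  apply add_le_add le_rfl
  by_contra hcon
  push Not at hcon
  apply h
  unfold Ex
  rw [if_pos hdN, mem_filter, mem_range]
  refine ⟨Nat.mod_lt _ (by omega), ?_⟩
  rw [ZMod.natCast_mod]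
  exact hcon

lemma low_total' (U : ℕ) (δ : ℝ) (hδ : 0 < δ) (η : ℝ) (hη : 0 < η) :
    ∃ C : ℝ, 0 ≤ C ∧ ∀ N : ℕ, 3 ≤ N → ∀ Q : ℕ, (Q : ℝ) ≤ (N : ℝ) ^ (1 - η) →
    ∀ f : ℕ → ℝ, (∀ d ∈ Icc 1 Q, f d ≤ low δ N d + (N : ℝ) ^ (1 - δ) / d) →
      (∀ d ∈ Icc 1 Q, f d ≤ N) → ∑ d ∈ Icc 1 Q, f d ≤ C * (N / Real.log N ^ U) := by
  obtain ⟨C1, hC10, x1, hx1, hC1⟩ := low_total U δ hδ η hη
  obtain ⟨C2, hC20, hC2⟩ := log_pow_le (U + 1) δ hδ
  refine ⟨C1 + C2 + x1 * (1 + Real.log x1) ^ U, ?_, fun N hN Q hQ f hf1 hf2 => ?_⟩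
  · have := Real.log_natCast_nonneg x1
    positivity
  have hN1 : (1:ℝ) ≤ N := by
    have : 1 ≤ N := by omega
    exact_mod_cast this
  have hN0 : (0:ℝ) < N := by linarith
  have hl : 0 < Real.log N := Real.log_pos (by
    have : (3:ℝ) ≤ N := by exact_mod_cast hN
    linarith)
  have hu : 0 < (N:ℝ) / Real.log N ^ U := by positivity
  have hx10 : 0 ≤ Real.log x1 := Real.log_natCast_nonneg x1
  have hQN : (Q:ℝ) ≤ N := by
    refine hQ.trans ?_
    calc (N:ℝ) ^ (1 - η) ≤ (N:ℝ) ^ (1:ℝ) := by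
          apply Real.rpow_le_rpow_of_exponent_le hN1
          linarith
      _ = N := Real.rpow_one _
  have hQN' : Q ≤ N := by exact_mod_cast hQN
  rcases Nat.lt_or_ge N x1 with h | h
  · have h1 : ∑ d ∈ Icc 1 Q, f d ≤ N * N := by
      refine (sum_le_sum hf2).trans ?_
      rw [sum_const, Nat.card_Icc, nsmul_eq_mul, Nat.add_sub_cancel]
      gcongr
    have hNx : (N:ℝ) ≤ x1 := by exact_mod_cast h.le
    have h2 : Real.log N ≤ 1 + Real.log x1 := by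
      have := Real.log_le_log hN0 hNx
      linarith
    have h3 : (N:ℝ) * N ≤ x1 * (1 + Real.log x1) ^ U * (N / Real.log N ^ U) := by
      rw [mul_div_assoc', le_div_iff₀ (by positivity)]
      calc (N:ℝ) * N * Real.log N ^ U ≤ x1 * N * (1 + Real.log x1) ^ U := by gcongr
        _ = _ := by ring
    have h4 : 0 ≤ (C1 + C2) * ((N:ℝ) / Real.log N ^ U) := by positivity
    calc ∑ d ∈ Icc 1 Q, f d ≤ N * N := h1
      _ ≤ (C1 + C2) * (N / Real.log N ^ U) +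
          x1 * (1 + Real.log x1) ^ U * (N / Real.log N ^ U) := by linarith
      _ = _ := by ring
  · have h1 := hC1 N h Q hQ
    have h2 : ∑ d ∈ Icc 1 Q, (N : ℝ) ^ (1 - δ) / d ≤ C2 * (N / Real.log N ^ U) := by
      have h3 : ∑ d ∈ Icc 1 Q, (N : ℝ) ^ (1 - δ) / d =
          (N : ℝ) ^ (1 - δ) * ∑ d ∈ Icc 1 Q, ((d:ℝ))⁻¹ := by
        rw [mul_sum]
        apply sum_congr rfl
        intro d _
        rw [div_eq_mul_inv]
      have h4 : ∑ d ∈ Icc 1 Q, ((d:ℝ))⁻¹ ≤ 1 + Real.log N := by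
        have h5 : ∑ d ∈ Icc 1 Q, ((d:ℝ))⁻¹ ≤ ∑ d ∈ Icc 1 N, ((d:ℝ))⁻¹ :=
          sum_le_sum_of_subset_of_nonneg (Icc_subset_Icc_right hQN') fun _ _ _ => by positivity
        have h6 := harmonic_le_one_add_log N
        have h7 : ((harmonic N : ℚ) : ℝ) = ∑ d ∈ Icc 1 N, ((d:ℝ))⁻¹ := by
          rw [harmonic_eq_sum_Icc]
          push_cast
          rfl
        rw [h7] at h6
        exact h5.trans h6
      rw [h3, mul_div_assoc', le_div_iff₀ (by positivity)]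
      have h8 := hC2 N (by omega)
      calc (N : ℝ) ^ (1 - δ) * (∑ d ∈ Icc 1 Q, ((d:ℝ))⁻¹) * Real.log N ^ U
          ≤ (N : ℝ) ^ (1 - δ) * (1 + Real.log N) * (1 + Real.log N) ^ U := by
            gcongr
            linarith
        _ = (N : ℝ) ^ (1 - δ) * (1 + Real.log N) ^ (U + 1) := by ring
        _ ≤ (N : ℝ) ^ (1 - δ) * (C2 * (N:ℝ) ^ δ) := by gcongr
        _ = C2 * ((N : ℝ) ^ (1 - δ) * (N:ℝ) ^ δ) := by ring
        _ = C2 * N := by
            rw [← Real.rpow_add hN0]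
            have : (1:ℝ) - δ + δ = 1 := by ring
            rw [this, Real.rpow_one]
    have h3 : ∑ d ∈ Icc 1 Q, f d ≤ ∑ d ∈ Icc 1 Q, low δ N d +
        ∑ d ∈ Icc 1 Q, (N : ℝ) ^ (1 - δ) / d := by
      rw [← sum_add_distrib]
      exact sum_le_sum hf1
    have h4 : 0 ≤ x1 * (1 + Real.log x1) ^ U * ((N:ℝ) / Real.log N ^ U) := by positivity
    calc ∑ d ∈ Icc 1 Q, f d ≤ C1 * (N / Real.log N ^ U) + C2 * (N / Real.log N ^ U) := by linarith
      _ ≤ C1 * (N / Real.log N ^ U) + C2 * (N / Real.log N ^ U) +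
          x1 * (1 + Real.log x1) ^ U * (N / Real.log N ^ U) := by linarith
      _ = _ := by ring

/-- number of members of `A` in a class -/
noncomputable def mu (A : Finset ℕ) (q r : ℕ) : ℝ := ((A.filter (fun a => a % q = r)).card : ℝ)

lemma sum_mod (A : Finset ℕ) (q : ℕ) (hq : 1 ≤ q) (F : ℕ → ℝ) :
    ∑ a ∈ A, F (a % q) = ∑ r ∈ range q, mu A q r * F r := by
  have hmaps : ∀ a ∈ A, a % q ∈ range q := fun a _ => mem_range.2 (Nat.mod_lt _ (by omega))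
  rw [← sum_fiberwise_of_maps_to hmaps]
  apply sum_congr rfl
  intro r _
  unfold mu
  rw [← nsmul_eq_mul, ← sum_const]
  apply sum_congr rfl
  intro a ha
  rw [(mem_filter.1 ha).2]

/-- Cauchy-Schwarz -/
lemma cs_part (A : Finset ℕ) (Q : ℕ) (g : ℕ → ℕ → ℝ) :
    ∑ a ∈ A, ∑ q ∈ Icc 1 Q, g q (a % q) ≤
      Real.sqrt (∑ q ∈ Icc 1 Q, ∑ a ∈ A, mu A q (a % q)) *
      Real.sqrt (∑ q ∈ Icc 1 Q, ∑ r ∈ range q, g q r ^ 2) := by
  rw [sum_comm]
  have h1 : ∑ q ∈ Icc 1 Q, ∑ a ∈ A, g q (a % q) =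
      ∑ p ∈ (Icc 1 Q).sigma (fun q => range q), mu A p.1 p.2 * g p.1 p.2 := by
    rw [sum_sigma]
    apply sum_congr rfl
    intro q hq
    rw [mem_Icc] at hq
    exact sum_mod A q hq.1 (g q)
  have h2 : ∑ q ∈ Icc 1 Q, ∑ a ∈ A, mu A q (a % q) =
      ∑ p ∈ (Icc 1 Q).sigma (fun q => range q), mu A p.1 p.2 ^ 2 := by
    rw [sum_sigma]
    apply sum_congr rfl
    intro q hq
    rw [mem_Icc] at hq
    rw [sum_mod A q hq.1 (mu A q)]
    apply sum_congr rfl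
    intro r _
    rw [sq]
  have h3 : ∑ q ∈ Icc 1 Q, ∑ r ∈ range q, g q r ^ 2 =
      ∑ p ∈ (Icc 1 Q).sigma (fun q => range q), g p.1 p.2 ^ 2 := by
    rw [sum_sigma]
  rw [h1, h2, h3]
  exact Real.sum_mul_le_sqrt_mul_sqrt _ _ _

/-- two different residues coincide modulo few moduli -/
lemma count_pair (η : ℝ) (hη : 0 < η) : ∃ C : ℝ, 0 < C ∧ ∀ M : ℝ, 1 ≤ M → ∀ Q a b : ℕ,
    (a:ℝ) ≤ M → (b:ℝ) ≤ M →
    ∑ q ∈ Icc 1 Q, (if b % q = a % q then (1:ℝ) else 0) ≤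
      (if b = a then (Q:ℝ) else 0) + C * M ^ η := by
  obtain ⟨C, hC0, hC⟩ := divisor_bound η hη
  refine ⟨C, hC0, fun M hM Q a b ha hb => ?_⟩
  have hM0 : 0 ≤ C * M ^ η := by positivity
  by_cases hab : b = a
  · rw [if_pos hab]
    calc ∑ q ∈ Icc 1 Q, (if b % q = a % q then (1:ℝ) else 0) ≤ ∑ _q ∈ Icc 1 Q, (1:ℝ) := by
          apply sum_le_sum
          intro q _
          split_ifs <;> norm_num
      _ = Q := by simp
      _ ≤ _ := by linarith
  · rw [if_neg hab, zero_add, sum_boole]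
    set n : ℕ := ((a:ℤ) - (b:ℤ)).natAbs with hn
    have hn1 : 1 ≤ n := by omega
    have hnM : (n:ℝ) ≤ M := by
      have h1 : n ≤ max a b := by omega
      have h2 : (n:ℝ) ≤ max (a:ℝ) b := by exact_mod_cast h1
      exact h2.trans (max_le ha hb)
    have hsub : (Icc 1 Q).filter (fun q => b % q = a % q) ⊆ n.divisors := by
      intro q hq
      rw [mem_filter, mem_Icc] at hq
      rw [Nat.mem_divisors]
      refine ⟨?_, by omega⟩
      have h1 : (q:ℤ) ∣ (a:ℤ) - b := (Nat.modEq_iff_dvd).1 hq.2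
      rw [hn]
      exact Int.natCast_dvd.1 h1
    calc ((((Icc 1 Q).filter (fun q => b % q = a % q)).card : ℕ) : ℝ) ≤ (n.divisors.card : ℝ) := by
          exact_mod_cast card_le_card hsub
      _ ≤ C * (n:ℝ) ^ η := hC n hn1
      _ ≤ C * M ^ η := by
          gcongr

lemma count_part (η : ℝ) (hη : 0 < η) : ∃ C : ℝ, 0 < C ∧ ∀ M : ℝ, 1 ≤ M → ∀ (Q : ℕ) (A : Finset ℕ),
    (∀ a ∈ A, (a:ℝ) ≤ M) →
    ∑ q ∈ Icc 1 Q, ∑ a ∈ A, mu A q (a % q) ≤ A.card * Q + C * (A.card : ℝ) ^ 2 * M ^ η := by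
  obtain ⟨C, hC0, hC⟩ := count_pair η hη
  refine ⟨C, hC0, fun M hM Q A hA => ?_⟩
  have h1 : ∑ q ∈ Icc 1 Q, ∑ a ∈ A, mu A q (a % q) =
      ∑ a ∈ A, ∑ b ∈ A, ∑ q ∈ Icc 1 Q, (if b % q = a % q then (1:ℝ) else 0) := by
    rw [sum_comm]
    apply sum_congr rfl
    intro a _
    rw [sum_comm]
    apply sum_congr rfl
    intro q _
    unfold mu
    rw [sum_boole]
  rw [h1]
  calc ∑ a ∈ A, ∑ b ∈ A, ∑ q ∈ Icc 1 Q, (if b % q = a % q then (1:ℝ) else 0)
      ≤ ∑ a ∈ A, ∑ b ∈ A, ((if b = a then (Q:ℝ) else 0) + C * M ^ η) := by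
        apply sum_le_sum
        intro a ha
        apply sum_le_sum
        intro b hb
        exact hC M hM Q a b (hA a ha) (hA b hb)
    _ = ∑ a ∈ A, ((Q:ℝ) + A.card * (C * M ^ η)) := by
        apply sum_congr rfl
        intro a ha
        rw [sum_add_distrib, sum_ite_eq' A a, if_pos ha, sum_const, nsmul_eq_mul]
    _ = A.card * Q + C * (A.card : ℝ) ^ 2 * M ^ η := by
        rw [sum_const, nsmul_eq_mul]
        ring

end Pool.Agent.TH926.EH
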