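import Pool.Agent.H441R3.BV.Small

/-!
Splitting of the discrepancy of the primes in a progression by the conductor of the characters:
a part which is small for all residues on average over the moduli and a part which is small in
mean square over the residues.
-/

set_option autoImplicit false

open Finset

namespace Pool.Agent.TH926.EH

open Pool.Agent.H398R2.BV (Prim card_prim_le)
open Pool.Agent.Helper112
open Pool.Agent.H442R2.EHI (piAP lis)
open Pool.Agent.H441R3.BV (PS PS_change)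
open Classical

/-- the nonprincipal characters of conductor at most `R` -/
noncomputable def lowS (d R : ℕ) : Finset (DirichletCharacter ℂ d) :=
  univ.filter (fun χ => χ ≠ 1 ∧ χ.conductor ≤ R)

/-- the nonprincipal characters of conductor more than `R` -/
noncomputable def highS (d R : ℕ) : Finset (DirichletCharacter ℂ d) :=
  univ.filter (fun χ => χ ≠ 1 ∧ R < χ.conductor)

lemma mem_lowS {d R : ℕ} {χ : DirichletCharacter ℂ d} :
    χ ∈ lowS d R ↔ χ ≠ 1 ∧ χ.conductor ≤ R := by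
  unfold lowS
  rw [mem_filter]
  simp

lemma mem_highS {d R : ℕ} {χ : DirichletCharacter ℂ d} :
    χ ∈ highS d R ↔ χ ≠ 1 ∧ R < χ.conductor := by
  unfold highS
  rw [mem_filter]
  simp

lemma filter_split (d R : ℕ) (g : DirichletCharacter ℂ d → ℂ) :
    ∑ χ ∈ (univ : Finset (DirichletCharacter ℂ d)).filter (fun χ => χ ≠ 1), g χ =
      ∑ χ ∈ lowS d R, g χ + ∑ χ ∈ highS d R, g χ := by
  rw [← sum_filter_add_sum_filter_not
    ((univ : Finset (DirichletCharacter ℂ d)).filter (fun χ => χ ≠ 1)) (fun χ => χ.conductor ≤ R)]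
  unfold lowS highS
  rw [filter_filter, filter_filter]
  simp only [not_le]

/-- the part of the discrepancy from the characters of large conductor -/
noncomputable def Al (N d R : ℕ) (u : ZMod d) : ℂ :=
  (1 / (Nat.totient d : ℂ)) * ∑ χ ∈ highS d R, χ⁻¹ u * PS N d χ

/-- orthogonality -/
lemma sum_char_mul (d : ℕ) [NeZero d] (χ ψ : DirichletCharacter ℂ d) :
    ∑ u : ZMod d, χ⁻¹ u * ψ u = if ψ = χ then (Nat.totient d : ℂ) else 0 := by
  have h1 : ∑ u : ZMod d, χ⁻¹ u * ψ u = ∑ u : ZMod d, (χ⁻¹ * ψ) u := by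
    apply sum_congr rfl
    intro u _
    rw [MulChar.mul_apply]
  rw [h1]
  split_ifs with h
  · subst h
    rw [inv_mul_cancel]
    rw [MulChar.sum_one_eq_card_units, ZMod.card_units_eq_totient]
  · apply MulChar.sum_eq_zero_of_ne_one
    intro h2
    apply h
    rw [inv_mul_eq_one] at h2
    exact h2.symm

/-- Parseval -/
lemma parseval (d : ℕ) [NeZero d] (S : Finset (DirichletCharacter ℂ d))
    (c : DirichletCharacter ℂ d → ℂ) :
    ∑ u : ZMod d, ‖∑ χ ∈ S, χ⁻¹ u * c χ‖ ^ 2 = Nat.totient d * ∑ χ ∈ S, ‖c χ‖ ^ 2 := by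
  have e1 : ∀ z : ℂ, ((‖z‖ ^ 2 : ℝ) : ℂ) = z * (starRingEnd ℂ) z := by
    intro z
    rw [Complex.mul_conj, Complex.normSq_eq_norm_sq]
  have e2 : ∀ (χ : DirichletCharacter ℂ d) (u : ZMod d), (starRingEnd ℂ) (χ⁻¹ u) = χ u := by
    intro χ u
    have := MulChar.star_apply' χ⁻¹ u
    rw [inv_inv] at this
    simpa using this
  have key : ((∑ u : ZMod d, ‖∑ χ ∈ S, χ⁻¹ u * c χ‖ ^ 2 : ℝ) : ℂ) =
      ((Nat.totient d * ∑ χ ∈ S, ‖c χ‖ ^ 2 : ℝ) : ℂ) := by
    rw [Complex.ofReal_sum]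
    have e3 : ∀ u : ZMod d, ((‖∑ χ ∈ S, χ⁻¹ u * c χ‖ ^ 2 : ℝ) : ℂ) =
        ∑ χ ∈ S, ∑ ψ ∈ S, c χ * (starRingEnd ℂ) (c ψ) * (χ⁻¹ u * ψ u) := by
      intro u
      rw [e1, map_sum, sum_mul_sum]
      apply sum_congr rfl
      intro χ _
      apply sum_congr rfl
      intro ψ _
      rw [map_mul, e2]
      ring
    rw [sum_congr rfl fun u _ => e3 u, sum_comm]
    have e4 : ∀ χ ∈ S, ∑ u : ZMod d, ∑ ψ ∈ S, c χ * (starRingEnd ℂ) (c ψ) * (χ⁻¹ u * ψ u) =
        (Nat.totient d : ℂ) * ((‖c χ‖ ^ 2 : ℝ) : ℂ) := by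
      intro χ hχ
      rw [sum_comm]
      have e5 : ∀ ψ ∈ S, ∑ u : ZMod d, c χ * (starRingEnd ℂ) (c ψ) * (χ⁻¹ u * ψ u) =
          if ψ = χ then (Nat.totient d : ℂ) * ((‖c χ‖ ^ 2 : ℝ) : ℂ) else 0 := by
        intro ψ _
        rw [← mul_sum, sum_char_mul]
        split_ifs with h
        · subst h
          rw [e1]
          ring
        · simp
      rw [sum_congr rfl e5, sum_ite_eq' S χ, if_pos hχ]
    rw [sum_congr rfl e4]
    push_cast
    rw [mul_sum]
  exact_mod_cast key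

lemma char_inv_eq (d a : ℕ) (ha : a.Coprime d) (χ : DirichletCharacter ℂ d) :
    χ ((a : ZMod d)⁻¹) = χ⁻¹ (a : ZMod d) := by
  have hau : IsUnit (a : ZMod d) := (ZMod.isUnit_iff_coprime a d).mpr ha
  rw [MulChar.inv_apply]
  congr 1
  obtain ⟨u, hu⟩ := hau
  rw [← hu, ZMod.inv_coe_unit, Ring.inverse_unit]

/-- number of primes dividing the modulus -/
lemma coprime_count (N d : ℕ) (hd : d ≠ 0) :
    |(((Icc 1 N).filter (fun p : ℕ => p.Prime ∧ p.Coprime d)).card : ℝ) -
      (((Icc 1 N).filter (fun p : ℕ => p.Prime)).card : ℝ)| ≤ d.primeFactors.card := by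
  set pd : ℝ := (((Icc 1 N).filter (fun p : ℕ => p.Prime ∧ p.Coprime d)).card : ℝ) with hpd
  set p1 : ℝ := (((Icc 1 N).filter (fun p : ℕ => p.Prime)).card : ℝ) with hp1
  have h1 : p1 = pd + (((Icc 1 N).filter (fun n => n.Prime ∧ ¬ n.Coprime d)).card : ℝ) := by
    rw [hp1, hpd, ← sum_boole, ← sum_boole, ← sum_boole, ← sum_add_distrib]
    apply sum_congr rfl
    intro n _
    by_cases h1 : n.Prime <;> by_cases h2 : n.Coprime d <;> simp [h1, h2]
  have h2 : (((Icc 1 N).filter (fun n => n.Prime ∧ ¬ n.Coprime d)).card : ℝ) ≤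
      d.primeFactors.card := by
    have : (Icc 1 N).filter (fun n => n.Prime ∧ ¬ n.Coprime d) ⊆ d.primeFactors := by
      intro n hn
      rw [mem_filter] at hn
      rw [Nat.mem_primeFactors]
      refine ⟨hn.2.1, ?_, hd⟩
      by_contra hcon
      exact hn.2.2 ((Nat.Prime.coprime_iff_not_dvd hn.2.1).2 hcon)
    exact_mod_cast card_le_card this
  have h3 : (0:ℝ) ≤ (((Icc 1 N).filter (fun n => n.Prime ∧ ¬ n.Coprime d)).card : ℝ) :=
    Nat.cast_nonneg _
  rw [abs_le]
  constructor <;> linarith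

/-- sum over primitive characters of conductor at most `R` -/
noncomputable def Gs (N R f : ℕ) : ℝ := if f ≤ R then ∑ ψ ∈ Prim f, ‖PS N f ψ‖ else 0

/-- sum over primitive characters of conductor more than `R` -/
noncomputable def Gl (N R f : ℕ) : ℝ := if R < f then 2 * ∑ ψ ∈ Prim f, ‖PS N f ψ‖ ^ 2 else 0

lemma Gs_nonneg (N R f : ℕ) : 0 ≤ Gs N R f := by
  unfold Gs
  split_ifs
  · exact sum_nonneg fun _ _ => norm_nonneg _
  · exact le_rfl

lemma Gl_nonneg (N R f : ℕ) : 0 ≤ Gl N R f := by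
  unfold Gl
  split_ifs
  · exact mul_nonneg (by norm_num) (sum_nonneg fun _ _ => by positivity)
  · exact le_rfl

lemma sum_low (N d R : ℕ) (hd : 1 ≤ d) :
    ∑ χ ∈ lowS d R, ‖PS N d χ‖ ≤
      ∑ f ∈ d.divisors.filter (fun f => f ≠ 1), Gs N R f + Nat.totient d * d.primeFactors.card := by
  have : NeZero d := ⟨by omega⟩
  set w : ℝ := (d.primeFactors.card : ℝ) with hw
  have hw0 : 0 ≤ w := Nat.cast_nonneg _
  have h1 := BLB.step2 d (fun χ => if χ.conductor ≤ R then max (‖PS N d χ‖ - w) 0 else 0)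
    (fun χ => by split_ifs; exacts [le_max_right _ _, le_rfl])
    (fun f ψ => if ψ.conductor ≤ R then ‖PS N f ψ‖ else 0) (by
      intro f hf ψ
      rw [DirichletCharacter.conductor_changeLevel]
      split_ifs
      · apply max_le _ (norm_nonneg _)
        have h2 := PS_change N d f (by omega) hf ψ
        linarith
      · exact le_rfl)
  have h2 : ∑ f ∈ d.divisors.filter (fun f => f ≠ 1),
        ∑ ψ ∈ (univ : Finset (DirichletCharacter ℂ f)).filter (fun χ => χ.IsPrimitive),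
          (if ψ.conductor ≤ R then ‖PS N f ψ‖ else 0) =
      ∑ f ∈ d.divisors.filter (fun f => f ≠ 1), Gs N R f := by
    apply sum_congr rfl
    intro f _
    unfold Gs
    have h3 : ∀ ψ ∈ (univ : Finset (DirichletCharacter ℂ f)).filter (fun χ => χ.IsPrimitive),
        (if ψ.conductor ≤ R then ‖PS N f ψ‖ else 0) = (if f ≤ R then ‖PS N f ψ‖ else 0) := by
      intro ψ hψ
      rw [mem_filter] at hψ
      have h4 : ψ.conductor = f := hψ.2
      rw [h4]
    rw [sum_congr rfl h3]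
    split_ifs
    · rfl
    · simp
  rw [h2] at h1
  have h5 : ∑ χ ∈ lowS d R, ‖PS N d χ‖ ≤
      ∑ χ ∈ (univ : Finset (DirichletCharacter ℂ d)).filter (fun χ => χ ≠ 1),
        ((if χ.conductor ≤ R then max (‖PS N d χ‖ - w) 0 else 0) + w) := by
    have h6 : lowS d R ⊆ (univ : Finset (DirichletCharacter ℂ d)).filter (fun χ => χ ≠ 1) := by
      intro χ hχ
      rw [mem_filter]
      exact ⟨mem_univ _, (mem_lowS.1 hχ).1⟩
    calc ∑ χ ∈ lowS d R, ‖PS N d χ‖ ≤ ∑ χ ∈ lowS d R,
          ((if χ.conductor ≤ R then max (‖PS N d χ‖ - w) 0 else 0) + w) := by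
          apply sum_le_sum
          intro χ hχ
          rw [if_pos (mem_lowS.1 hχ).2]
          have := le_max_left (‖PS N d χ‖ - w) 0
          linarith
      _ ≤ _ := by
          apply sum_le_sum_of_subset_of_nonneg h6
          intro χ _ _
          split_ifs
          · exact add_nonneg (le_max_right _ _) hw0
          · linarith
  refine h5.trans ?_
  rw [sum_add_distrib, sum_const, nsmul_eq_mul]
  have h7 : (((univ : Finset (DirichletCharacter ℂ d)).filter (fun χ => χ ≠ 1)).card : ℝ) ≤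
      (Nat.totient d : ℝ) := by
    have h6 := DirichletCharacter.card_eq_totient_of_hasEnoughRootsOfUnity ℂ d
    rw [← h6, Nat.card_eq_fintype_card]
    exact_mod_cast (card_filter_le _ _)
  exact add_le_add h1 (mul_le_mul_of_nonneg_right h7 hw0)

lemma sum_high (N d R : ℕ) (hd : 1 ≤ d) :
    ∑ χ ∈ highS d R, ‖PS N d χ‖ ^ 2 ≤
      ∑ f ∈ d.divisors.filter (fun f => f ≠ 1), Gl N R f +
        2 * Nat.totient d * (d.primeFactors.card : ℝ) ^ 2 := by
  have : NeZero d := ⟨by omega⟩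
  set w : ℝ := (d.primeFactors.card : ℝ) with hw
  have hw0 : 0 ≤ w := Nat.cast_nonneg _
  have h1 := BLB.step2 d
    (fun χ => if R < χ.conductor then max (‖PS N d χ‖ ^ 2 - 2 * w ^ 2) 0 else 0)
    (fun χ => by split_ifs; exacts [le_max_right _ _, le_rfl])
    (fun f ψ => if R < ψ.conductor then 2 * ‖PS N f ψ‖ ^ 2 else 0) (by
      intro f hf ψ
      rw [DirichletCharacter.conductor_changeLevel]
      split_ifs
      · apply max_le _ (by positivity)
        have h2 := PS_change N d f (by omega) hf ψ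
        have h3 : ‖PS N d (DirichletCharacter.changeLevel hf ψ)‖ ^ 2 ≤ (‖PS N f ψ‖ + w) ^ 2 :=
          pow_le_pow_left₀ (norm_nonneg _) h2 2
        nlinarith [sq_nonneg (‖PS N f ψ‖ - w)]
      · exact le_rfl)
  have h2 : ∑ f ∈ d.divisors.filter (fun f => f ≠ 1),
        ∑ ψ ∈ (univ : Finset (DirichletCharacter ℂ f)).filter (fun χ => χ.IsPrimitive),
          (if R < ψ.conductor then 2 * ‖PS N f ψ‖ ^ 2 else 0) =
      ∑ f ∈ d.divisors.filter (fun f => f ≠ 1), Gl N R f := by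
    apply sum_congr rfl
    intro f _
    unfold Gl
    have h3 : ∀ ψ ∈ (univ : Finset (DirichletCharacter ℂ f)).filter (fun χ => χ.IsPrimitive),
        (if R < ψ.conductor then 2 * ‖PS N f ψ‖ ^ 2 else 0) =
          (if R < f then 2 * ‖PS N f ψ‖ ^ 2 else 0) := by
      intro ψ hψ
      rw [mem_filter] at hψ
      have h4 : ψ.conductor = f := hψ.2
      rw [h4]
    rw [sum_congr rfl h3]
    split_ifs
    · rw [mul_sum]; rfl
    · simp
  rw [h2] at h1
  have h5 : ∑ χ ∈ highS d R, ‖PS N d χ‖ ^ 2 ≤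
      ∑ χ ∈ (univ : Finset (DirichletCharacter ℂ d)).filter (fun χ => χ ≠ 1),
        ((if R < χ.conductor then max (‖PS N d χ‖ ^ 2 - 2 * w ^ 2) 0 else 0) + 2 * w ^ 2) := by
    have h6 : highS d R ⊆ (univ : Finset (DirichletCharacter ℂ d)).filter (fun χ => χ ≠ 1) := by
      intro χ hχ
      rw [mem_filter]
      exact ⟨mem_univ _, (mem_highS.1 hχ).1⟩
    calc ∑ χ ∈ highS d R, ‖PS N d χ‖ ^ 2 ≤ ∑ χ ∈ highS d R,
          ((if R < χ.conductor then max (‖PS N d χ‖ ^ 2 - 2 * w ^ 2) 0 else 0) + 2 * w ^ 2) := by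
          apply sum_le_sum
          intro χ hχ
          rw [if_pos (mem_highS.1 hχ).2]
          have := le_max_left (‖PS N d χ‖ ^ 2 - 2 * w ^ 2) 0
          linarith
      _ ≤ _ := by
          apply sum_le_sum_of_subset_of_nonneg h6
          intro χ _ _
          split_ifs
          · exact add_nonneg (le_max_right _ _) (by positivity)
          · positivity
  refine h5.trans ?_
  rw [sum_add_distrib, sum_const, nsmul_eq_mul]
  have h7 : (((univ : Finset (DirichletCharacter ℂ d)).filter (fun χ => χ ≠ 1)).card : ℝ) ≤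
      (Nat.totient d : ℝ) := by
    have h6 := DirichletCharacter.card_eq_totient_of_hasEnoughRootsOfUnity ℂ d
    rw [← h6, Nat.card_eq_fintype_card]
    exact_mod_cast (card_filter_le _ _)
  have h8 : (((univ : Finset (DirichletCharacter ℂ d)).filter (fun χ => χ ≠ 1)).card : ℝ) *
      (2 * w ^ 2) ≤ (Nat.totient d : ℝ) * (2 * w ^ 2) :=
    mul_le_mul_of_nonneg_right h7 (by positivity)
  linarith

/-- **mean square over the residues** -/
theorem Al_sq (N d R : ℕ) (hd : 1 ≤ d) [NeZero d] :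
    ∑ u : ZMod d, ‖Al N d R u‖ ^ 2 ≤
      (1 / (Nat.totient d : ℝ)) * ∑ f ∈ d.divisors.filter (fun f => f ≠ 1), Gl N R f +
        2 * (d.primeFactors.card : ℝ) ^ 2 := by
  have hφ : (0 : ℝ) < Nat.totient d := by exact_mod_cast Nat.totient_pos.mpr (by omega)
  have h1 : ∀ u : ZMod d, ‖Al N d R u‖ ^ 2 =
      (1 / (Nat.totient d : ℝ)) ^ 2 * ‖∑ χ ∈ highS d R, χ⁻¹ u * PS N d χ‖ ^ 2 := by
    intro u
    unfold Al
    rw [norm_mul, mul_pow]
    congr 2
    rw [norm_div, norm_one, Complex.norm_natCast]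
  rw [sum_congr rfl fun u _ => h1 u, ← mul_sum, parseval]
  have h2 := sum_high N d R hd
  calc (1 / (Nat.totient d : ℝ)) ^ 2 * (Nat.totient d * ∑ χ ∈ highS d R, ‖PS N d χ‖ ^ 2)
      = (1 / (Nat.totient d : ℝ)) * ∑ χ ∈ highS d R, ‖PS N d χ‖ ^ 2 := by field_simp
    _ ≤ (1 / (Nat.totient d : ℝ)) * (∑ f ∈ d.divisors.filter (fun f => f ≠ 1), Gl N R f +
        2 * Nat.totient d * (d.primeFactors.card : ℝ) ^ 2) := by gcongr
    _ = _ := by field_simp

/-- **pointwise bound** -/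
theorem point (N d R a : ℕ) (hd : 1 ≤ d) (ha : a.Coprime d) :
    |piAP N d a - (((Icc 1 N).filter (fun p : ℕ => p.Prime)).card : ℝ) / (Nat.totient d : ℝ)| ≤
      (1 / (Nat.totient d : ℝ)) * ∑ f ∈ d.divisors.filter (fun f => f ≠ 1), Gs N R f +
        2 * d.primeFactors.card + ‖Al N d R (a : ZMod d)‖ := by
  have : NeZero d := ⟨by omega⟩
  have hφ1 : (1 : ℝ) ≤ Nat.totient d := by exact_mod_cast Nat.totient_pos.mpr (by omega)
  have hφ : (0 : ℝ) < Nat.totient d := by linarith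
  set w : ℝ := (d.primeFactors.card : ℝ) with hw
  have hw0 : 0 ≤ w := Nat.cast_nonneg _
  set pd : ℝ := (((Icc 1 N).filter (fun p : ℕ => p.Prime ∧ p.Coprime d)).card : ℝ) with hpd
  set p1 : ℝ := (((Icc 1 N).filter (fun p : ℕ => p.Prime)).card : ℝ) with hp1
  -- step 1
  have s1 : |piAP N d a - pd / (Nat.totient d : ℝ)| ≤ (1 / (Nat.totient d : ℝ)) *
      ∑ χ ∈ lowS d R, ‖PS N d χ‖ + ‖Al N d R (a : ZMod d)‖ := by
    have e1 : piAP N d a - pd / (Nat.totient d : ℝ) =
        ∑ n ∈ Icc 1 N, (if n.Prime then (1:ℝ) else 0) * ((if n ≡ a [MOD d] then (1 : ℝ) else 0) -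
        (if n.Coprime d then (1 : ℝ) / (Nat.totient d : ℝ) else 0)) := by
      have e2 : piAP N d a = ∑ n ∈ Icc 1 N, (if n.Prime then (1:ℝ) else 0) *
          (if n ≡ a [MOD d] then (1 : ℝ) else 0) := by
        unfold piAP
        rw [← sum_boole]
        apply sum_congr rfl
        intro n _
        by_cases h1 : n.Prime <;> by_cases h2 : n ≡ a [MOD d] <;> simp [h1, h2]
      have e3 : pd / (Nat.totient d : ℝ) = ∑ n ∈ Icc 1 N, (if n.Prime then (1:ℝ) else 0) *
          (if n.Coprime d then (1 : ℝ) / (Nat.totient d : ℝ) else 0) := by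
        rw [hpd, ← sum_boole, sum_div]
        apply sum_congr rfl
        intro n _
        by_cases h1 : n.Prime
        · by_cases h2 : n.Coprime d
          · rw [if_pos ⟨h1, h2⟩, if_pos h1, if_pos h2]; ring
          · rw [if_neg (by tauto), if_neg h2]; ring
        · rw [if_neg (by tauto), if_neg h1]; ring
      rw [e2, e3, ← sum_sub_distrib]
      apply sum_congr rfl
      intro n _
      ring
    have e2 : ((∑ n ∈ Icc 1 N, (if n.Prime then (1:ℝ) else 0) *
        ((if n ≡ a [MOD d] then (1 : ℝ) else 0) -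
        (if n.Coprime d then (1 : ℝ) / (Nat.totient d : ℝ) else 0)) : ℝ) : ℂ) =
        (1 / (Nat.totient d : ℂ)) *
        ∑ χ ∈ (univ : Finset (DirichletCharacter ℂ d)).filter (fun χ => χ ≠ 1),
          χ⁻¹ (a : ZMod d) * PS N d χ := by
      rw [Complex.ofReal_sum]
      have : ∀ n ∈ Icc 1 N, (((if n.Prime then (1:ℝ) else 0) *
          ((if n ≡ a [MOD d] then (1 : ℝ) else 0) -
        (if n.Coprime d then (1 : ℝ) / (Nat.totient d : ℝ) else 0)) : ℝ) : ℂ) =
          ∑ χ ∈ (univ : Finset (DirichletCharacter ℂ d)).filter (fun χ => χ ≠ 1),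
            (1 / (Nat.totient d : ℂ)) * (χ⁻¹ (a : ZMod d) *
              (((if n.Prime then (1:ℝ) else 0 : ℝ) : ℂ) * χ (n : ZMod d))) := by
        intro n _
        rw [Complex.ofReal_mul, BLB.bracket d a ha n, mul_sum, mul_sum]
        apply sum_congr rfl
        intro χ _
        rw [char_inv_eq d a ha χ]
        ring
      rw [sum_congr rfl this, sum_comm, mul_sum]
      apply sum_congr rfl
      intro χ _
      unfold PS
      rw [mul_sum, mul_sum]
    have e3 : ∑ χ ∈ (univ : Finset (DirichletCharacter ℂ d)).filter (fun χ => χ ≠ 1),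
          χ⁻¹ (a : ZMod d) * PS N d χ =
        ∑ χ ∈ lowS d R, χ⁻¹ (a : ZMod d) * PS N d χ +
          ∑ χ ∈ highS d R, χ⁻¹ (a : ZMod d) * PS N d χ := by
      rw [← filter_split d R]
      apply sum_congr _ fun _ _ => rfl
      ext χ
      simp
    rw [e1, ← Real.norm_eq_abs, ← Complex.norm_real, e2, e3, mul_add]
    refine (norm_add_le _ _).trans ?_
    apply add_le_add _ (le_of_eq rfl)
    rw [norm_mul]
    have h1 : ‖(1 / (Nat.totient d : ℂ))‖ = 1 / (Nat.totient d : ℝ) := by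
      rw [norm_div, norm_one, Complex.norm_natCast]
    rw [h1]
    apply mul_le_mul_of_nonneg_left _ (by positivity)
    refine (norm_sum_le _ _).trans (sum_le_sum ?_)
    intro χ _
    rw [norm_mul]
    have : ‖χ⁻¹ (a : ZMod d)‖ ≤ 1 := (χ⁻¹).norm_le_one _
    calc ‖χ⁻¹ (a : ZMod d)‖ * ‖PS N d χ‖ ≤ 1 * ‖PS N d χ‖ :=
          mul_le_mul_of_nonneg_right this (norm_nonneg _)
      _ = _ := one_mul _
  have s2 := sum_low N d R hd
  have s3 : |pd - p1| ≤ w := coprime_count N d (by omega)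
  have e : piAP N d a - p1 / (Nat.totient d : ℝ) = (piAP N d a - pd / (Nat.totient d : ℝ)) +
      (pd - p1) / (Nat.totient d : ℝ) := by ring
  rw [e]
  refine (abs_add_le _ _).trans ?_
  have t2 : |(pd - p1) / (Nat.totient d : ℝ)| ≤ w := by
    rw [abs_div, abs_of_pos hφ, div_le_iff₀ hφ]
    nlinarith
  have t4 : (1 / (Nat.totient d : ℝ)) * ∑ χ ∈ lowS d R, ‖PS N d χ‖ ≤
      (1 / (Nat.totient d : ℝ)) * ∑ f ∈ d.divisors.filter (fun f => f ≠ 1), Gs N R f + w := by
    calc _ ≤ (1 / (Nat.totient d : ℝ)) * (∑ f ∈ d.divisors.filter (fun f => f ≠ 1), Gs N R f +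
        Nat.totient d * w) := by gcongr
      _ = _ := by field_simp
  linarith

end Pool.Agent.TH926.EH
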