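import Pool.Agent.TH926.EH.Main

/-!
Arbitrary sets of residues; the number of the bad residues.
-/

set_option autoImplicit false

open Finset Filter

namespace Pool.Agent.TH926.EH

open Pool.Agent.Helper112

lemma sqrt_add_le' {a b : ℝ} (ha : 0 ≤ a) (hb : 0 ≤ b) :
    Real.sqrt (a + b) ≤ Real.sqrt a + Real.sqrt b := by
  rw [Real.sqrt_le_left (by positivity)]
  nlinarith [Real.sq_sqrt ha, Real.sq_sqrt hb, Real.sqrt_nonneg a, Real.sqrt_nonneg b,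
    mul_nonneg (Real.sqrt_nonneg a) (Real.sqrt_nonneg b)]

lemma E_nonneg (N q a : ℕ) : 0 ≤ E N q a := abs_nonneg _

/-- arbitrary sets of residues -/
theorem sets (ε B : ℝ) (hε : 0 < ε) (hε1 : ε < 1) (hB : 0 ≤ B) (U : ℕ) : ∃ C : ℝ, 0 < C ∧
    ∀ N : ℕ, 3 ≤ N → ∀ Q : ℕ, (Q : ℝ) ≤ (N : ℝ) ^ (1 - ε) →
    ∀ A : Finset ℕ, (∀ a ∈ A, (a : ℝ) ≤ (N : ℝ) ^ B) →
    ∑ a ∈ A, ∑ q ∈ (Icc 1 Q).filter (fun q => a.Coprime q), E N q a ≤
      C * (A.card * (N / Real.log N ^ U) + Real.sqrt A.card * (Q * (N : ℝ) ^ (1 / 2 + ε))) := by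
  obtain ⟨C1, hC10, hC1⟩ := low_total' U (ε / 8) (by positivity) ε hε
  obtain ⟨C2, hC20, hC2⟩ := high_sum (ε / 8) (by positivity) (by linarith)
  obtain ⟨C3, hC30, hC3⟩ := count_part (ε / (8 * (B + 1))) (by positivity)
  obtain ⟨C4, hC40, hC4⟩ := log_pow_le U (ε / 4) (by positivity)
  refine ⟨C1 + Real.sqrt C2 + Real.sqrt (C2 * C3) * C4, by positivity, fun N hN Q hQ A hA => ?_⟩
  have hN1 : (1:ℝ) ≤ N := by
    have : 1 ≤ N := by omega
    exact_mod_cast this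
  have hN0 : (0:ℝ) < N := by linarith
  have hl : 0 < Real.log N := Real.log_pos (by
    have : (3:ℝ) ≤ N := by exact_mod_cast hN
    linarith)
  set u : ℝ := (N:ℝ) / Real.log N ^ U with hu
  have hu0 : 0 < u := by positivity
  set n : ℝ := (A.card : ℝ) with hn
  have hn0 : 0 ≤ n := Nat.cast_nonneg _
  rcases Nat.eq_zero_or_pos Q with hQ0 | hQ1
  · subst hQ0
    have : ∑ a ∈ A, ∑ q ∈ (Icc 1 0).filter (fun q => a.Coprime q), E N q a = 0 := by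
      apply sum_eq_zero
      intro a _
      simp
    rw [this]
    positivity
  have hQ1' : (1:ℝ) ≤ Q := by exact_mod_cast hQ1
  have hQN : (Q:ℝ) ≤ N := by
    refine hQ.trans ?_
    calc (N:ℝ) ^ (1 - ε) ≤ (N:ℝ) ^ (1:ℝ) := by
          apply Real.rpow_le_rpow_of_exponent_le hN1
          linarith
      _ = N := Real.rpow_one _
  have hQN' : Q ≤ N := by exact_mod_cast hQN
  set R := cut (ε / 8) N with hR
  set g : ℕ → ℕ → ℝ := fun q r => ‖Al N q R (r : ZMod q)‖ with hg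
  have s1 : ∑ a ∈ A, ∑ q ∈ (Icc 1 Q).filter (fun q => a.Coprime q), E N q a ≤
      ∑ a ∈ A, ∑ q ∈ Icc 1 Q, (min (low (ε / 8) N q) N + g q (a % q)) := by
    apply sum_le_sum
    intro a _
    have hm : ∀ q, 0 ≤ min (low (ε / 8) N q) N + g q (a % q) := fun q =>
      add_nonneg (le_min (low_nonneg _ _ _) hN0.le) (norm_nonneg _)
    calc ∑ q ∈ (Icc 1 Q).filter (fun q => a.Coprime q), E N q a ≤
        ∑ q ∈ (Icc 1 Q).filter (fun q => a.Coprime q), (min (low (ε / 8) N q) N + g q (a % q)) := by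
          apply sum_le_sum
          intro q hq
          rw [mem_filter, mem_Icc] at hq
          have h1 := E_le (ε / 8) N q a hq.1.1 hq.2
          have h2 := E_triv N q a hq.1.1
          have h3 : g q (a % q) = ‖Al N q R (a : ZMod q)‖ := by
            simp only [hg]
            rw [ZMod.natCast_mod]
          have h4 : 0 ≤ ‖Al N q R (a : ZMod q)‖ := norm_nonneg _
          rw [h3]
          rcases min_choice (low (ε / 8) N q) (N:ℝ) with h | h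
          · rw [h]
            exact h1
          · rw [h]
            linarith
      _ ≤ _ := sum_le_sum_of_subset_of_nonneg (filter_subset _ _) fun q _ _ => hm q
  have s2 : ∑ a ∈ A, ∑ q ∈ Icc 1 Q, (min (low (ε / 8) N q) N + g q (a % q)) =
      n * ∑ q ∈ Icc 1 Q, min (low (ε / 8) N q) N + ∑ a ∈ A, ∑ q ∈ Icc 1 Q, g q (a % q) := by
    rw [← nsmul_eq_mul, ← sum_const, ← sum_add_distrib]
    apply sum_congr rfl
    intro a _
    rw [sum_add_distrib]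
  have s3 : ∑ q ∈ Icc 1 Q, min (low (ε / 8) N q) (N:ℝ) ≤ C1 * u := by
    apply hC1 N hN Q hQ (fun q => min (low (ε / 8) N q) (N:ℝ))
    · intro d _
      have h1 : 0 ≤ (N : ℝ) ^ (1 - ε / 8) / d := by positivity
      exact (min_le_left _ _).trans (by linarith)
    · intro d _
      exact min_le_right _ _
  have hB1 : (1:ℝ) ≤ (N:ℝ) ^ B := Real.one_le_rpow hN1 hB
  have s4 := hC3 ((N:ℝ) ^ B) hB1 Q A hA
  have s5 := hC2 N (by omega) Q hQ1 hQN'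
  have s6 := cs_part A Q g
  have hBη : ((N:ℝ) ^ B) ^ (ε / (8 * (B + 1))) ≤ (N:ℝ) ^ (ε / 8) := by
    rw [← Real.rpow_mul hN0.le]
    apply Real.rpow_le_rpow_of_exponent_le hN1
    rw [mul_div_assoc', div_le_div_iff₀ (by positivity) (by norm_num)]
    nlinarith
  have s7 : ∑ q ∈ Icc 1 Q, ∑ a ∈ A, mu A q (a % q) ≤ n * Q + C3 * n ^ 2 * (N:ℝ) ^ (ε / 8) := by
    refine s4.trans ?_
    gcongr
  set H : ℝ := C2 * Q * (N : ℝ) ^ (1 + 3 * (ε / 8)) with hH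
  have hH0 : 0 ≤ H := by positivity
  have s8 : ∑ a ∈ A, ∑ q ∈ Icc 1 Q, g q (a % q) ≤
      Real.sqrt (n * Q) * Real.sqrt H + Real.sqrt (C3 * n ^ 2 * (N:ℝ) ^ (ε / 8)) * Real.sqrt H := by
    refine s6.trans ?_
    rw [← add_mul]
    apply mul_le_mul _ (Real.sqrt_le_sqrt s5) (Real.sqrt_nonneg _) (by positivity)
    refine (Real.sqrt_le_sqrt s7).trans ?_
    exact sqrt_add_le' (by positivity) (by positivity)
  have s9 : Real.sqrt (n * Q) * Real.sqrt H ≤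
      Real.sqrt C2 * (Real.sqrt n * (Q * (N : ℝ) ^ (1 / 2 + ε))) := by
    rw [← Real.sqrt_mul (by positivity)]
    have e1 : n * Q * H = C2 * (n * ((Q:ℝ) ^ 2 * (N : ℝ) ^ (1 + 3 * (ε / 8)))) := by
      rw [hH]; ring
    rw [e1, Real.sqrt_mul hC20.le, Real.sqrt_mul hn0, Real.sqrt_mul (by positivity),
      Real.sqrt_sq (by positivity)]
    have e2 : Real.sqrt ((N : ℝ) ^ (1 + 3 * (ε / 8))) ≤ (N : ℝ) ^ (1 / 2 + ε) := by
      rw [Real.sqrt_eq_rpow, ← Real.rpow_mul hN0.le]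
      apply Real.rpow_le_rpow_of_exponent_le hN1
      linarith
    gcongr
  have s10 : Real.sqrt (C3 * n ^ 2 * (N:ℝ) ^ (ε / 8)) * Real.sqrt H ≤
      Real.sqrt (C2 * C3) * C4 * (n * u) := by
    rw [← Real.sqrt_mul (by positivity)]
    have e1 : C3 * n ^ 2 * (N:ℝ) ^ (ε / 8) * H =
        (C2 * C3) * (n ^ 2 * (Q * ((N : ℝ) ^ (ε / 8) * (N : ℝ) ^ (1 + 3 * (ε / 8))))) := by
      rw [hH]; ring
    have e2 : Q * ((N : ℝ) ^ (ε / 8) * (N : ℝ) ^ (1 + 3 * (ε / 8))) ≤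
        ((N:ℝ) ^ (1 - ε / 4)) ^ 2 := by
      rw [← Real.rpow_add hN0]
      calc Q * (N:ℝ) ^ (ε / 8 + (1 + 3 * (ε / 8))) ≤
          (N:ℝ) ^ (1 - ε) * (N:ℝ) ^ (ε / 8 + (1 + 3 * (ε / 8))) := by gcongr
        _ = ((N:ℝ) ^ (1 - ε / 4)) ^ 2 := by
            rw [← Real.rpow_add hN0, ← Real.rpow_natCast, ← Real.rpow_mul hN0.le]
            congr 1
            push_cast
            ring
    have e3 : (N:ℝ) ^ (1 - ε / 4) ≤ C4 * u := by
      rw [hu, mul_div_assoc', le_div_iff₀ (by positivity)]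
      have h1 := hC4 N (by omega)
      calc (N:ℝ) ^ (1 - ε / 4) * Real.log N ^ U ≤ (N:ℝ) ^ (1 - ε / 4) * (1 + Real.log N) ^ U := by
            gcongr
            linarith
        _ ≤ (N:ℝ) ^ (1 - ε / 4) * (C4 * (N:ℝ) ^ (ε / 4)) := by gcongr
        _ = C4 * ((N:ℝ) ^ (1 - ε / 4) * (N:ℝ) ^ (ε / 4)) := by ring
        _ = C4 * N := by
            rw [← Real.rpow_add hN0]
            have : (1:ℝ) - ε / 4 + ε / 4 = 1 := by ring
            rw [this, Real.rpow_one]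
    rw [e1, Real.sqrt_mul (by positivity : 0 ≤ C2 * C3), Real.sqrt_mul (by positivity : 0 ≤ n ^ 2),
      Real.sqrt_sq hn0]
    have e4 : Real.sqrt (Q * ((N : ℝ) ^ (ε / 8) * (N : ℝ) ^ (1 + 3 * (ε / 8)))) ≤ C4 * u := by
      refine (Real.sqrt_le_sqrt e2).trans ?_
      rw [Real.sqrt_sq (by positivity)]
      exact e3
    calc Real.sqrt (C2 * C3) * (n * Real.sqrt (Q * ((N : ℝ) ^ (ε / 8) *
          (N : ℝ) ^ (1 + 3 * (ε / 8))))) ≤ Real.sqrt (C2 * C3) * (n * (C4 * u)) := by gcongr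
      _ = _ := by ring
  have s11 : n * ∑ q ∈ Icc 1 Q, min (low (ε / 8) N q) (N:ℝ) ≤ C1 * (n * u) := by
    calc n * ∑ q ∈ Icc 1 Q, min (low (ε / 8) N q) (N:ℝ) ≤ n * (C1 * u) := by gcongr
      _ = _ := by ring
  have p1 : 0 ≤ n * u := by positivity
  have p2 : 0 ≤ Real.sqrt n * (Q * (N : ℝ) ^ (1 / 2 + ε)) := by positivity
  have p3 : 0 ≤ Real.sqrt C2 * (n * u) := by positivity
  have p4 : 0 ≤ (C1 + Real.sqrt (C2 * C3) * C4) *
    (Real.sqrt n * (Q * (N : ℝ) ^ (1 / 2 + ε))) := by positivity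
  calc _ ≤ _ := s1
    _ = _ := s2
    _ ≤ C1 * (n * u) + (Real.sqrt C2 * (Real.sqrt n * (Q * (N : ℝ) ^ (1 / 2 + ε))) +
        Real.sqrt (C2 * C3) * C4 * (n * u)) := by linarith
    _ ≤ C1 * (n * u) + (Real.sqrt C2 * (Real.sqrt n * (Q * (N : ℝ) ^ (1 / 2 + ε))) +
        Real.sqrt (C2 * C3) * C4 * (n * u)) + Real.sqrt C2 * (n * u) +
        (C1 + Real.sqrt (C2 * C3) * C4) * (Real.sqrt n * (Q * (N : ℝ) ^ (1 / 2 + ε))) := by
        linarith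
    _ = _ := by ring

/-- **few bad residues** -/
theorem few_bad (ε B : ℝ) (hε : 0 < ε) (hε1 : ε < 1) (hB : 0 ≤ B) (U : ℕ) : ∃ C : ℝ, 0 < C ∧
    ∀ N : ℕ, 3 ≤ N → ∀ Q : ℕ, (Q : ℝ) ≤ (N : ℝ) ^ (1 - ε) →
    ∀ A : Finset ℕ, (∀ a ∈ A, 1 ≤ a ∧ (a : ℝ) ≤ (N : ℝ) ^ B ∧
      N / Real.log N ^ U < ∑ q ∈ (Icc 1 Q).filter (fun q => a.Coprime q), E N q a) →
    (A.card : ℝ) ≤ C * (Q : ℝ) ^ 2 * (N : ℝ) ^ (-1 + ε) := by
  obtain ⟨C1, hC10, hC1⟩ := sets (ε / 4) B (by positivity) (by linarith) hB (U + 1)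
  obtain ⟨C2, hC20, hC2⟩ := log_pow_le (2 * U) (ε / 2) (by positivity)
  set N0 : ℕ := ⌈Real.exp (2 * C1)⌉₊ + 3 with hN0d
  have hN03 : (1:ℝ) ≤ N0 := by
    have : 1 ≤ N0 := by omega
    exact_mod_cast this
  refine ⟨(N0:ℝ) ^ (B + 1) + 4 * C1 ^ 2 * C2, by positivity, fun N hN Q hQ A hA => ?_⟩
  have hN1 : (1:ℝ) ≤ N := by
    have : 1 ≤ N := by omega
    exact_mod_cast this
  have hN0 : (0:ℝ) < N := by linarith
  have hl : 0 < Real.log N := Real.log_pos (by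
    have : (3:ℝ) ≤ N := by exact_mod_cast hN
    linarith)
  rcases A.eq_empty_or_nonempty with hAe | ⟨a0, ha0⟩
  · rw [hAe]
    simp only [card_empty, Nat.cast_zero]
    positivity
  have hQ1 : 1 ≤ Q := by
    by_contra hcon
    have hQ0 : Q = 0 := by omega
    have h1 := (hA a0 ha0).2.2
    rw [hQ0] at h1
    simp only [show Icc 1 0 = (∅ : Finset ℕ) from rfl, filter_empty, sum_empty] at h1
    have h2 : 0 < (N:ℝ) / Real.log N ^ U := by positivity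
    linarith
  have hQ1' : (1:ℝ) ≤ Q := by exact_mod_cast hQ1
  have hP : 0 ≤ (Q : ℝ) ^ 2 * (N : ℝ) ^ (-1 + ε) := by positivity
  rcases Nat.lt_or_ge N N0 with h | h
  · have hNN0 : (N:ℝ) ≤ N0 := by exact_mod_cast h.le
    have h1 : (A.card : ℝ) ≤ (N:ℝ) ^ B := by
      have h2 : A ⊆ Icc 1 ⌊(N:ℝ) ^ B⌋₊ := by
        intro a ha
        rw [mem_Icc]
        exact ⟨(hA a ha).1, Nat.le_floor (hA a ha).2.1⟩
      have h3 := card_le_card h2
      rw [Nat.card_Icc, Nat.add_sub_cancel] at h3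
      calc (A.card : ℝ) ≤ (⌊(N:ℝ) ^ B⌋₊ : ℝ) := by exact_mod_cast h3
        _ ≤ (N:ℝ) ^ B := Nat.floor_le (by positivity)
    have h2 : (1:ℝ) ≤ (N0:ℝ) * ((Q : ℝ) ^ 2 * (N : ℝ) ^ (-1 + ε)) := by
      have h3 : (N:ℝ) ^ (-1:ℝ) ≤ (N:ℝ) ^ (-1 + ε) := by
        apply Real.rpow_le_rpow_of_exponent_le hN1
        linarith
      have h4 : (1:ℝ) ≤ (Q:ℝ) ^ 2 := one_le_pow₀ hQ1'
      calc (1:ℝ) = N * (1 * (N:ℝ) ^ (-1:ℝ)) := by
            rw [Real.rpow_neg_one]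
            field_simp
        _ ≤ (N0:ℝ) * ((Q : ℝ) ^ 2 * (N : ℝ) ^ (-1 + ε)) := by gcongr
    have h3 : 0 ≤ 4 * C1 ^ 2 * C2 * ((Q : ℝ) ^ 2 * (N : ℝ) ^ (-1 + ε)) := by positivity
    have h5 : (N:ℝ) ^ B ≤ (N0:ℝ) ^ B := Real.rpow_le_rpow hN0.le hNN0 hB
    have h6 : (N0:ℝ) ^ (B + 1) = (N0:ℝ) ^ B * N0 := by
      rw [Real.rpow_add (by linarith), Real.rpow_one]
    calc (A.card : ℝ) ≤ (N0:ℝ) ^ B * 1 := by linarith
      _ ≤ (N0:ℝ) ^ B * ((N0:ℝ) * ((Q : ℝ) ^ 2 * (N : ℝ) ^ (-1 + ε))) := by gcongr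
      _ = (N0:ℝ) ^ (B + 1) * ((Q : ℝ) ^ 2 * (N : ℝ) ^ (-1 + ε)) := by rw [h6]; ring
      _ ≤ (N0:ℝ) ^ (B + 1) * ((Q : ℝ) ^ 2 * (N : ℝ) ^ (-1 + ε)) +
          4 * C1 ^ 2 * C2 * ((Q : ℝ) ^ 2 * (N : ℝ) ^ (-1 + ε)) := by linarith
      _ = _ := by ring
  · set Λ := Real.log N with hΛ
    have hΛ1 : 2 * C1 ≤ Λ := by
      rw [hΛ, Real.le_log_iff_exp_le hN0]
      calc Real.exp (2 * C1) ≤ (⌈Real.exp (2 * C1)⌉₊ : ℝ) := Nat.le_ceil _
        _ ≤ (N0:ℝ) := by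
            have : ⌈Real.exp (2 * C1)⌉₊ ≤ N0 := by omega
            exact_mod_cast this
        _ ≤ N := by exact_mod_cast h
    have hQ' : (Q : ℝ) ≤ (N : ℝ) ^ (1 - ε / 4) := by
      refine hQ.trans ?_
      apply Real.rpow_le_rpow_of_exponent_le hN1
      linarith
    have h1 := hC1 N hN Q hQ' A (fun a ha => (hA a ha).2.1)
    set n : ℝ := (A.card : ℝ) with hn
    have hn1 : (1:ℝ) ≤ n := by
      have h0 : 1 ≤ A.card := Finset.card_pos.2 ⟨a0, ha0⟩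
      rw [hn]
      exact_mod_cast h0
    have h2 : n * (N / Λ ^ U) ≤ ∑ a ∈ A, ∑ q ∈ (Icc 1 Q).filter (fun q => a.Coprime q), E N q a := by
      rw [← nsmul_eq_mul, ← sum_const]
      apply sum_le_sum
      intro a ha
      exact (hA a ha).2.2.le
    set s : ℝ := Real.sqrt n with hs
    have hs2 : s * s = n := Real.mul_self_sqrt (by linarith)
    have hs0 : 0 < s := Real.sqrt_pos.2 (by linarith)
    set t : ℝ := (Q:ℝ) * (N : ℝ) ^ (1 / 2 + ε / 4) with ht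
    have ht0 : 0 ≤ t := by positivity
    have h3 : C1 * (n * (N / Λ ^ (U + 1))) ≤ (1 / 2) * (n * (N / Λ ^ U)) := by
      have e1 : C1 * (n * (N / Λ ^ (U + 1))) = (C1 / Λ) * (n * (N / Λ ^ U)) := by
        rw [pow_succ]
        field_simp
      rw [e1]
      apply mul_le_mul_of_nonneg_right _ (by positivity)
      rw [div_le_div_iff₀ hl (by norm_num)]
      linarith
    have h4 : n * (N / Λ ^ U) ≤ 2 * C1 * (s * t) := by
      have : n * (N / Λ ^ U) ≤ C1 * (n * (N / Λ ^ (U + 1)) + s * t) := h2.trans h1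
      linarith
    have h5 : s * N ≤ 2 * C1 * t * Λ ^ U := by
      have e1 : n * (N / Λ ^ U) = s * (s * N / Λ ^ U) := by
        rw [← hs2]; ring
      have e2 : 2 * C1 * (s * t) = s * (2 * C1 * t) := by ring
      rw [e1, e2] at h4
      have h6 := le_of_mul_le_mul_left h4 hs0
      rw [div_le_iff₀ (by positivity)] at h6
      exact h6
    have h6 : n * (N:ℝ) ^ 2 ≤ 4 * C1 ^ 2 * (t ^ 2 * (1 + Λ) ^ (2 * U)) := by
      have e1 : n * (N:ℝ) ^ 2 = (s * N) ^ 2 := by rw [← hs2]; ring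
      rw [e1]
      calc (s * N) ^ 2 ≤ (2 * C1 * t * Λ ^ U) ^ 2 := by
            apply pow_le_pow_left₀ (by positivity) h5
        _ = 4 * C1 ^ 2 * (t ^ 2 * Λ ^ (2 * U)) := by
            rw [pow_mul']
            ring
        _ ≤ 4 * C1 ^ 2 * (t ^ 2 * (1 + Λ) ^ (2 * U)) := by
            gcongr
            linarith
    have h7 := hC2 N (by omega)
    have h8 : n * (N:ℝ) ^ 2 ≤ (4 * C1 ^ 2 * C2 * ((Q : ℝ) ^ 2 * (N : ℝ) ^ (-1 + ε))) * (N:ℝ) ^ 2 := by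
      calc n * (N:ℝ) ^ 2 ≤ 4 * C1 ^ 2 * (t ^ 2 * (C2 * (N:ℝ) ^ (ε / 2))) := by
            refine h6.trans ?_
            gcongr
        _ = 4 * C1 ^ 2 * C2 * (Q:ℝ) ^ 2 * (((N : ℝ) ^ (1 / 2 + ε / 4)) ^ 2 * (N:ℝ) ^ (ε / 2)) := by
            rw [ht]; ring
        _ = 4 * C1 ^ 2 * C2 * (Q:ℝ) ^ 2 * ((N : ℝ) ^ (-1 + ε) * (N:ℝ) ^ 2) := by
            congr 1
            rw [← Real.rpow_natCast, ← Real.rpow_natCast, ← Real.rpow_mul hN0.le,
              ← Real.rpow_add hN0, ← Real.rpow_add hN0]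
            congr 1
            push_cast
            ring
        _ = _ := by ring
    have h9 := le_of_mul_le_mul_right h8 (by positivity)
    have h10 : 0 ≤ (N0:ℝ) ^ (B + 1) * ((Q : ℝ) ^ 2 * (N : ℝ) ^ (-1 + ε)) := by positivity
    calc n ≤ 4 * C1 ^ 2 * C2 * ((Q : ℝ) ^ 2 * (N : ℝ) ^ (-1 + ε)) := h9
      _ ≤ (N0:ℝ) ^ (B + 1) * ((Q : ℝ) ^ 2 * (N : ℝ) ^ (-1 + ε)) +
          4 * C1 ^ 2 * C2 * ((Q : ℝ) ^ 2 * (N : ℝ) ^ (-1 + ε)) := by linarith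
      _ = _ := by ring

end Pool.Agent.TH926.EH
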